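import Mathlib

/-!
# Circuits whose refutation trees read the input in few passes: definitions
-/

namespace Pool.Agent.FP

/-! ## The clique function -/

/-- the variables: pairs `i < j` of vertices -/
abbrev EdgeVar (n : ℕ) : Type := {p : Fin n × Fin n // p.1 < p.2}

/-- the graph given by an assignment -/
def graphOf {n : ℕ} (x : EdgeVar n → Bool) : SimpleGraph (Fin n) where
  Adj u v := ∃ e : EdgeVar n, x e = true ∧ (e.1 = (u, v) ∨ e.1 = (v, u))
  symm := ⟨by
    rintro u v ⟨e, h, h'⟩
    exact ⟨e, h, h'.symm⟩⟩
  loopless := ⟨by
    rintro u ⟨e, -, h⟩
    have h1 := e.2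
    rcases h with h | h <;> rw [h] at h1 <;> exact lt_irrefl _ h1⟩

/-- the graph has a clique with more than `√n` vertices -/
def HasClique {n : ℕ} (G : SimpleGraph (Fin n)) : Prop :=
  ∃ K : Finset (Fin n), G.IsClique (K : Set (Fin n)) ∧ Real.sqrt n < K.card

/-- `CLIQUE_n` has the value `1` on `x` -/
def Clq {n : ℕ} (x : EdgeVar n → Bool) : Prop := HasClique (graphOf x)

/-! ## Circuits -/

/-- A gate: a literal (the variable `v` if `b` is true, its negation if `b` is false), or an AND or
OR gate whose two wires come from the gates `i` (left) and `j` (right). -/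
inductive Gate (V : Type) (s : ℕ)
  | lit (v : V) (b : Bool)
  | and (i j : Fin s)
  | or (i j : Fin s)

/-- A circuit with `s` gates: the wires of a gate come from earlier gates; `out` is the output. -/
structure Circuit (V : Type) (s : ℕ) where
  gate : Fin s → Gate V s
  and_lt : ∀ g i j, gate g = .and i j → i < g ∧ j < g
  or_lt : ∀ g i j, gate g = .or i j → i < g ∧ j < g
  out : Fin s

/-- `val` gives the values of the gates on the input `x` -/
def Circuit.IsEval {V : Type} {s : ℕ} (D : Circuit V s) (x : V → Bool) (val : Fin s → Bool) :
    Prop :=
  ∀ g, val g = match D.gate g with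
    | .lit v b => x v == b
    | .and i j => val i && val j
    | .or i j => val i || val j

/-- the value of the circuit on the input `x` is `1` -/
def Circuit.Accepts {V : Type} {s : ℕ} (D : Circuit V s) (x : V → Bool) : Prop :=
  ∃ val, D.IsEval x val ∧ val D.out = true

/-- `D.Refutes x g L`: there is a refutation tree for the gate `g` on the input `x` which ends, from
left to right, at literals of the variables in the list `L`.  A refutation tree shows that `g` has
the value `0`: from an OR gate it goes to both wires (the left one first), from an AND gate to one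
of them, and it ends at literals with the value `0`. -/
inductive Circuit.Refutes {V : Type} {s : ℕ} (D : Circuit V s) (x : V → Bool) :
    Fin s → List V → Prop
  | lit (g : Fin s) (v : V) (b : Bool) : D.gate g = .lit v b → x v ≠ b → D.Refutes x g [v]
  | left (g i j : Fin s) (L : List V) : D.gate g = .and i j → D.Refutes x i L → D.Refutes x g L
  | right (g i j : Fin s) (L : List V) : D.gate g = .and i j → D.Refutes x j L → D.Refutes x g L
  | both (g i j : Fin s) (L L' : List V) : D.gate g = .or i j → D.Refutes x i L →
      D.Refutes x j L' → D.Refutes x g (L ++ L')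

/-- the number of places of a list at which the class (given by `c`) changes -/
def changes {V : Type} (c : V → Fin 3) : List V → ℕ
  | v :: w :: L => (if c v = c w then 0 else 1) + changes c (w :: L)
  | _ => 0

/-- The list `L` reads the variables in `p` passes over the order given by `pos`: it is the
concatenation of `p` lists each of which is read in this order or against this order. -/
def ReadsIn {V : Type} (pos : V → ℕ) (p : ℕ) (L : List V) : Prop :=
  ∃ P : List (List V), P.length = p ∧ P.flatten = L ∧ ∀ l ∈ P,
    l.Pairwise (fun v w => pos v ≤ pos w) ∨ l.Pairwise (fun v w => pos w ≤ pos v)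

/-! ## Stars -/

/-- `A` is closed under stars: `u` belongs to `A` if for each class `k` the set `A` contains an
assignment which agrees with `u` outside the class `k` -/
def Star {V : Type} (c : V → Fin 3) (A : (V → Bool) → Prop) : Prop :=
  ∀ (u : V → Bool) (v : Fin 3 → V → Bool), (∀ k e, c e ≠ k → v k e = u e) → (∀ k, A (v k)) → A u

/-- the pair `{u, v}` is a variable of the class `t` -/
def Col {n : ℕ} (c : EdgeVar n → Fin 3) (t : Fin 3) (u v : Fin n) : Prop :=
  ∃ e : EdgeVar n, c e = t ∧ (e.1 = (u, v) ∨ e.1 = (v, u))

end Pool.Agent.FP
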