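import Mathlib
import Pool.Agent.Lib.MP_0a1b52_lc_FP.Defs

/-!
# The inputs with a refutation tree with few changes are covered by few star-closed sets
-/

namespace Pool.Agent.FP

variable {V : Type} {s : ℕ}

/-- the gate `g` has a refutation tree -/
def Circuit.Ref (D : Circuit V s) (x : V → Bool) (g : Fin s) : Prop := ∃ L, D.Refutes x g L

/-- there is a refutation tree for `g` all of whose literals have variables of the class `k` -/
def Circuit.Pure (D : Circuit V s) (c : V → Fin 3) (x : V → Bool) (k : Fin 3) (g : Fin s) : Prop :=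
  ∃ L, D.Refutes x g L ∧ ∀ v ∈ L, c v = k

/-- one step of a chain: the part passed over belongs to the class `a` (left) or `b` (right) -/
inductive Cov_Step (D : Circuit V s) (c : V → Fin 3) (x : V → Bool) (a b : Fin 3) :
    Fin s → Fin s → Prop
  | andl (g i j : Fin s) : D.gate g = .and i j → Cov_Step D c x a b g i
  | andr (g i j : Fin s) : D.gate g = .and i j → Cov_Step D c x a b g j
  | orl (g i j : Fin s) : D.gate g = .or i j → D.Pure c x b j → Cov_Step D c x a b g i
  | orr (g i j : Fin s) : D.gate g = .or i j → D.Pure c x a i → Cov_Step D c x a b g j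

/-- skeletons -/
inductive Sk (s : ℕ)
  | leaf (k : Fin 3)
  | br (a b : Fin 3) (g : Fin s) (l r : Sk s)

def Sk.size : Sk s → ℕ
  | .leaf _ => 1
  | .br _ _ _ l r => l.size + r.size + 1

/-- `s` is a skeleton of a refutation tree for `g` -/
inductive Vd (D : Circuit V s) (c : V → Fin 3) (x : V → Bool) : Fin s → Sk s → Prop
  | leaf (g : Fin s) (k : Fin 3) : D.Pure c x k g → Vd D c x g (.leaf k)
  | br (g g' i j : Fin s) (a b : Fin 3) (l r : Sk s) :
      Relation.ReflTransGen (Cov_Step D c x a b) g g' → D.gate g' = .or i j →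
      Vd D c x i l → Vd D c x j r → Vd D c x g (.br a b g' l r)

theorem Cov_step_ref {D : Circuit V s} {c : V → Fin 3} {x : V → Bool} {a b : Fin 3} {g g' : Fin s}
    (h : Cov_Step D c x a b g g') (h' : D.Ref x g') : D.Ref x g := by
  obtain ⟨L, hL⟩ := h'
  cases h with
  | andl _ j h1 => exact ⟨L, .left g g' j L h1 hL⟩
  | andr i _ h1 => exact ⟨L, .right g i g' L h1 hL⟩
  | orl _ j h1 h2 =>
    obtain ⟨L', h3, -⟩ := h2
    exact ⟨L ++ L', .both g g' j L L' h1 hL h3⟩
  | orr i _ h1 h2 =>
    obtain ⟨L', h3, -⟩ := h2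
    exact ⟨L' ++ L, .both g i g' L' L h1 h3 hL⟩

theorem Cov_chain_ref {D : Circuit V s} {c : V → Fin 3} {x : V → Bool} {a b : Fin 3}
    {g g' : Fin s} (h : Relation.ReflTransGen (Cov_Step D c x a b) g g') (h' : D.Ref x g') :
    D.Ref x g := by
  induction h with
  | refl => exact h'
  | tail _ h2 ih => exact ih (Cov_step_ref h2 h')

theorem Vd.sound {D : Circuit V s} {c : V → Fin 3} {x : V → Bool} {g : Fin s} {t : Sk s}
    (h : Vd D c x g t) : D.Ref x g := by
  induction h with
  | leaf g k h1 =>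
    obtain ⟨L, hL, -⟩ := h1
    exact ⟨L, hL⟩
  | br g g' i j a b l r h1 h2 _ _ ih1 ih2 =>
    obtain ⟨L, hL⟩ := ih1
    obtain ⟨L', hL'⟩ := ih2
    exact Cov_chain_ref h1 ⟨L ++ L', .both g' i j L L' h2 hL hL'⟩

/-- a refuted gate has the value `0` -/
theorem Cov_ref_eval {D : Circuit V s} {x : V → Bool} {val : Fin s → Bool} (hv : D.IsEval x val)
    {g : Fin s} {L : List V} (h : D.Refutes x g L) : val g = false := by
  induction h with
  | lit g v b h1 h2 =>
    rw [hv g, h1]
    simpa using h2
  | left g i j L h1 _ ih =>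
    rw [hv g, h1]
    simp [ih]
  | right g i j L h1 _ ih =>
    rw [hv g, h1]
    simp [ih]
  | both g i j L L' h1 _ _ ih ih' =>
    rw [hv g, h1]
    simp [ih, ih']

/-- refutation trees all of whose literals are of a class depend only on this class -/
theorem Cov_refutes_congr {D : Circuit V s} {x y : V → Bool} {g : Fin s} {L : List V}
    (h : D.Refutes x g L) (hxy : ∀ v ∈ L, x v = y v) : D.Refutes y g L := by
  induction h with
  | lit g v b h1 h2 =>
    refine .lit g v b h1 ?_
    rw [← hxy v (by simp)]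
    exact h2
  | left g i j L h1 _ ih => exact .left g i j L h1 (ih hxy)
  | right g i j L h1 _ ih => exact .right g i j L h1 (ih hxy)
  | both g i j L L' h1 _ _ ih ih' =>
    exact .both g i j L L' h1 (ih fun v hv => hxy v (by simp [hv]))
      (ih' fun v hv => hxy v (by simp [hv]))

theorem Cov_pure_congr {D : Circuit V s} {c : V → Fin 3} {x y : V → Bool} {k : Fin 3} {g : Fin s}
    (hxy : ∀ v, c v = k → x v = y v) (h : D.Pure c x k g) : D.Pure c y k g := by
  obtain ⟨L, hL, hk⟩ := h
  exact ⟨L, Cov_refutes_congr hL fun v hv => hxy v (hk v hv), hk⟩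

theorem Cov_chain_congr {D : Circuit V s} {c : V → Fin 3} {x y : V → Bool} {a b : Fin 3}
    (hxy : ∀ v, c v = a ∨ c v = b → x v = y v) {g g' : Fin s}
    (h : Relation.ReflTransGen (Cov_Step D c x a b) g g') :
    Relation.ReflTransGen (Cov_Step D c y a b) g g' := by
  induction h with
  | refl => exact .refl
  | @tail g1 g2 _ h ih =>
    refine .tail ih ?_
    cases h with
    | andl _ j h1 => exact .andl g1 g2 j h1
    | andr i _ h1 => exact .andr g1 i g2 h1
    | orl _ j h1 h2 => exact .orl g1 g2 j h1 (Cov_pure_congr (fun v hv => hxy v (Or.inr hv)) h2)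
    | orr i _ h1 h2 => exact .orr g1 i g2 h1 (Cov_pure_congr (fun v hv => hxy v (Or.inl hv)) h2)

/-- the star lemma -/
theorem Vd.star {D : Circuit V s} {c : V → Fin 3} {u : V → Bool} {v : Fin 3 → V → Bool}
    (huv : ∀ k e, c e ≠ k → v k e = u e) (t : Sk s) :
    ∀ g, (∀ k, Vd D c (v k) g t) → Vd D c u g t := by
  have hk : ∀ a b : Fin 3, ∃ k : Fin 3, k ≠ a ∧ k ≠ b := by decide
  induction t with
  | leaf a =>
    intro g h
    obtain ⟨k, hk1, -⟩ := hk a a
    have h1 := h k
    cases h1 with
    | leaf _ _ h2 =>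
      refine .leaf g a (Cov_pure_congr (fun e he => huv k e ?_) h2)
      rw [he]
      exact hk1.symm
  | br a b g' l r ihl ihr =>
    intro g h
    obtain ⟨k, hk1, hk2⟩ := hk a b
    have h1 := h k
    cases h1 with
    | br _ _ i j _ _ _ _ hch hg hl hr =>
      refine .br g g' i j a b l r (Cov_chain_congr (fun e he => huv k e ?_) hch) hg
        (ihl i ?_) (ihr j ?_)
      · rcases he with he | he
        · rw [he]
          exact hk1.symm
        · rw [he]
          exact hk2.symm
      · intro k'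
        have h2 := h k'
        cases h2 with
        | br _ _ i' j' _ _ _ _ hch' hg' hl' hr' =>
          rw [hg] at hg'
          injection hg' with e1 e2
          rw [e1]
          exact hl'
      · intro k'
        have h2 := h k'
        cases h2 with
        | br _ _ i' j' _ _ _ _ hch' hg' hl' hr' =>
          rw [hg] at hg'
          injection hg' with e1 e2
          rw [e2]
          exact hr'

/-! ### Existence of skeletons -/

theorem Cov_changes_append (c : V → Fin 3) (w v : V) (L' : List V) : ∀ L : List V,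
    L.getLast? = some w → L'.head? = some v →
    changes c (L ++ L') = changes c L + changes c L' + if c w = c v then 0 else 1
  | [], h, _ => by simp at h
  | [u], h, h' => by
    obtain ⟨L'', rfl⟩ : ∃ L'', L' = v :: L'' := by
      cases L' with
      | nil => simp at h'
      | cons a l =>
        simp at h'
        exact ⟨l, by rw [h']⟩
    simp at h
    subst h
    simp [changes]
    omega
  | u :: u' :: L, h, h' => by
    have h1 := Cov_changes_append c w v L' (u' :: L) (by simpa using h) h'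
    simp only [List.cons_append, changes] at h1 ⊢
    rw [h1]
    omega

/-- the frame of a refutation -/
def Cov_Fr (D : Circuit V s) (c : V → Fin 3) (x : V → Bool) (g : Fin s) (L : List V) : Prop :=
  ∃ v w, L.head? = some v ∧ L.getLast? = some w ∧
    ((changes c L = 0 ∧ c w = c v ∧ ∀ u ∈ L, c u = c v) ∨
      (0 < changes c L ∧ ∃ g' l r, Vd D c x g (.br (c v) (c w) g' l r) ∧
        l.size + r.size + 2 ≤ 4 * changes c L))

theorem Cov_fr_step {D : Circuit V s} {c : V → Fin 3} {x : V → Bool} {a b : Fin 3}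
    {g i g' : Fin s} {l r : Sk s} (h : Cov_Step D c x a b g i)
    (h' : Vd D c x i (.br a b g' l r)) : Vd D c x g (.br a b g' l r) := by
  cases h' with
  | br _ _ i' j' _ _ _ _ hch hg hl hr =>
    exact .br g g' i' j' a b l r (.head h hch) hg hl hr

theorem Cov_fr {D : Circuit V s} {c : V → Fin 3} {x : V → Bool} {g : Fin s} {L : List V}
    (h : D.Refutes x g L) : Cov_Fr D c x g L := by
  induction h with
  | lit g v b h1 h2 =>
    exact ⟨v, v, rfl, rfl, Or.inl ⟨rfl, rfl, by simp⟩⟩
  | left g i j L h1 _ ih =>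
    obtain ⟨v, w, hv, hw, ih⟩ := ih
    refine ⟨v, w, hv, hw, ?_⟩
    rcases ih with ih | ⟨h0, g', l, r, h3, h4⟩
    · exact Or.inl ih
    · exact Or.inr ⟨h0, g', l, r, Cov_fr_step (.andl g i j h1) h3, h4⟩
  | right g i j L h1 _ ih =>
    obtain ⟨v, w, hv, hw, ih⟩ := ih
    refine ⟨v, w, hv, hw, ?_⟩
    rcases ih with ih | ⟨h0, g', l, r, h3, h4⟩
    · exact Or.inl ih
    · exact Or.inr ⟨h0, g', l, r, Cov_fr_step (.andr g i j h1) h3, h4⟩
  | both g i j L L' h1 hL hL' ih ih' =>
    obtain ⟨v, w, hv, hw, ih⟩ := ih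
    obtain ⟨v', w', hv', hw', ih'⟩ := ih'
    have hne : L ≠ [] := by
      rintro rfl
      simp at hv
    have hne' : L' ≠ [] := by
      rintro rfl
      simp at hv'
    have hc := Cov_changes_append c w v' L' L hw hv'
    refine ⟨v, w', ?_, ?_, ?_⟩
    · rw [List.head?_append_of_ne_nil L hne, hv]
    · rw [List.getLast?_append_of_ne_nil L hne', hw']
    by_cases he : c w = c v'
    · rw [if_pos he] at hc
      rcases ih with ⟨h0, h5, h6⟩ | ⟨h0, g', l, r, h3, h4⟩
      · rcases ih' with ⟨h0', h5', h6'⟩ | ⟨h0', g', l, r, h3', h4'⟩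
        · left
          refine ⟨by omega, by rw [h5', ← he, h5], fun u hu => ?_⟩
          rcases List.mem_append.1 hu with hu | hu
          · exact h6 u hu
          · rw [h6' u hu, ← he, h5]
        · right
          refine ⟨by omega, g', l, r, ?_, by omega⟩
          have e : c v = c v' := by rw [← h5, he]
          rw [e]
          exact Cov_fr_step (.orr g i j h1 ⟨L, hL, fun u hu => by rw [h6 u hu, e]⟩) h3'
      · rcases ih' with ⟨h0', h5', h6'⟩ | ⟨h0', g'', l', r', h3', h4'⟩
        · right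
          refine ⟨by omega, g', l, r, ?_, by omega⟩
          have e : c w' = c w := by rw [h5', he]
          rw [e]
          exact Cov_fr_step (.orl g i j h1 ⟨L', hL', fun u hu => by rw [h6' u hu, he]⟩) h3
        · right
          refine ⟨by omega, g, .br (c v) (c w) g' l r, .br (c v') (c w') g'' l' r',
            .br g g i j _ _ _ _ .refl h1 h3 h3', ?_⟩
          simp only [Sk.size]
          omega
    · rw [if_neg he] at hc
      obtain ⟨l, hl, hls⟩ : ∃ l : Sk s, Vd D c x i l ∧
          l.size ≤ 4 * changes c L + 1 := by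
        rcases ih with ⟨h0, h5, h6⟩ | ⟨h0, g', l, r, h3, h4⟩
        · exact ⟨.leaf (c v), .leaf i _ ⟨L, hL, h6⟩, by simp [Sk.size]⟩
        · exact ⟨_, h3, by simp only [Sk.size]; omega⟩
      obtain ⟨r, hr, hrs⟩ : ∃ r : Sk s, Vd D c x j r ∧
          r.size ≤ 4 * changes c L' + 1 := by
        rcases ih' with ⟨h0, h5, h6⟩ | ⟨h0, g', l, r, h3, h4⟩
        · exact ⟨.leaf (c v'), .leaf j _ ⟨L', hL', h6⟩, by simp [Sk.size]⟩
        · exact ⟨_, h3, by simp only [Sk.size]; omega⟩
      right
      refine ⟨by omega, g, l, r, .br g g i j _ _ _ _ .refl h1 hl hr, by omega⟩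

theorem Cov_exists {D : Circuit V s} {c : V → Fin 3} {x : V → Bool} {g : Fin s} {L : List V}
    (h : D.Refutes x g L) : ∃ t : Sk s, Vd D c x g t ∧ t.size ≤ 4 * changes c L + 1 := by
  obtain ⟨v, w, hv, hw, ih⟩ := Cov_fr (c := c) h
  rcases ih with ⟨h0, h5, h6⟩ | ⟨h0, g', l, r, h3, h4⟩
  · exact ⟨.leaf (c v), .leaf g _ ⟨L, h, h6⟩, by simp [Sk.size]⟩
  · exact ⟨_, h3, by simp only [Sk.size]; omega⟩

/-! ### Counting skeletons -/

/-- tokens -/
abbrev Cov_Tok (s : ℕ) : Type := Fin 3 ⊕ (Fin 3 × Fin 3 × Fin s)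

def Sk.enc : Sk s → List (Cov_Tok s)
  | .leaf k => [.inl k]
  | .br a b g l r => .inr (a, b, g) :: (l.enc ++ r.enc)

theorem Sk.length_enc (t : Sk s) : t.enc.length = t.size := by
  induction t with
  | leaf k => rfl
  | br a b g l r ihl ihr =>
    simp [Sk.enc, Sk.size, ihl, ihr]

def Cov_build : ℕ → List (Cov_Tok s) → Sk s × List (Cov_Tok s)
  | 0, ts => (.leaf 0, ts)
  | _ + 1, [] => (.leaf 0, [])
  | _ + 1, .inl k :: ts => (.leaf k, ts)
  | n + 1, .inr (a, b, g) :: ts =>
    (.br a b g (Cov_build n ts).1 (Cov_build n (Cov_build n ts).2).1,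
      (Cov_build n (Cov_build n ts).2).2)

theorem Cov_build_enc (t : Sk s) : ∀ (n : ℕ) (rest : List (Cov_Tok s)), t.size ≤ n →
    Cov_build n (t.enc ++ rest) = (t, rest) := by
  induction t with
  | leaf k =>
    intro n rest hn
    simp only [Sk.size] at hn
    obtain ⟨n, rfl⟩ : ∃ m, n = m + 1 := ⟨n - 1, by omega⟩
    rfl
  | br a b g l r ihl ihr =>
    intro n rest hn
    simp only [Sk.size] at hn
    obtain ⟨n, rfl⟩ : ∃ m, n = m + 1 := ⟨n - 1, by omega⟩
    have h1 := ihl n (r.enc ++ rest) (by omega)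
    have h2 := ihr n rest (by omega)
    simp only [Sk.enc, List.cons_append, List.append_assoc, Cov_build, h1, h2]

/-! ### The cover -/

theorem circuit_cover {V : Type} {s : ℕ} (D : Circuit V s) (c : V → Fin 3) (r : ℕ) :
    ∃ (K : ℕ) (T : Fin K → (V → Bool) → Prop), K ≤ (16 * s) ^ (4 * r + 3) ∧
      (∀ θ, Star c (T θ)) ∧ (∀ θ x, T θ x → ¬ D.Accepts x) ∧
      ∀ x, (∃ L, D.Refutes x D.out L ∧ changes c L ≤ r) → ∃ θ, T θ x := by
  have hs : 1 ≤ s := by
    have := D.out.2
    omega
  let M := 4 * r + 1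
  let e := Fintype.equivFin (List.Vector (Cov_Tok s) M)
  let P : List.Vector (Cov_Tok s) M → (V → Bool) → Prop :=
    fun θ x => Vd D c x D.out (Cov_build M θ.1).1
  refine ⟨Fintype.card (List.Vector (Cov_Tok s) M), fun θ x => P (e.symm θ) x, ?_, ?_, ?_, ?_⟩
  · rw [card_vector]
    have h1 : Fintype.card (Cov_Tok s) = 3 + 3 * (3 * s) := by simp [Cov_Tok]
    rw [h1]
    calc (3 + 3 * (3 * s)) ^ M ≤ (16 * s) ^ M := Nat.pow_le_pow_left (by omega) _
      _ ≤ (16 * s) ^ (4 * r + 3) := Nat.pow_le_pow_right (by omega) (by simp only [M]; omega)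
  · intro θ u v huv h
    exact Vd.star huv _ _ h
  · rintro θ x h ⟨val, hv, ho⟩
    obtain ⟨L, hL⟩ := Vd.sound h
    rw [Cov_ref_eval hv hL] at ho
    exact Bool.noConfusion ho
  · rintro x ⟨L, hL, hr⟩
    obtain ⟨t, ht, hts⟩ := Cov_exists (c := c) hL
    have hM : t.size ≤ M := by
      simp only [M]
      omega
    refine ⟨e ⟨t.enc ++ List.replicate (M - t.size) (.inl 0), ?_⟩, ?_⟩
    · rw [List.length_append, List.length_replicate, Sk.length_enc]
      omega
    · simp only [P, Equiv.symm_apply_apply]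
      rw [Cov_build_enc t M _ hM]
      exact ht

end Pool.Agent.FP
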