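import Mathlib

/-!
Module BEH: Behrend type sets without nontrivial solutions of the convex equations with
coefficients at most five.
-/

namespace Pool.Agent.FP

open Finset

theorem Beh_map_lt (k B : ℕ) (x : Fin k → ℕ) (hB : 1 ≤ B) (hx : ∀ i, x i < B) :
    Behrend.map B x < B ^ k := by
  induction k with
  | zero => simp
  | succ k ih =>
    rw [Behrend.map_succ']
    have h1 := ih (x ∘ Fin.succ) (fun i => hx i.succ)
    have h2 := hx 0
    have h3 : Behrend.map B (x ∘ Fin.succ) + 1 ≤ B ^ k := h1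
    have h4 : (Behrend.map B (x ∘ Fin.succ) + 1) * B ≤ B ^ k * B := Nat.mul_le_mul_right B h3
    rw [pow_succ]
    calc x 0 + Behrend.map B (x ∘ Fin.succ) * B < B + Behrend.map B (x ∘ Fin.succ) * B := by omega
      _ = (Behrend.map B (x ∘ Fin.succ) + 1) * B := by ring
      _ ≤ B ^ k * B := h4

theorem Beh_eq {k : ℕ} {S : ℕ} {α β : ℕ} (hα : 1 ≤ α) (hβ : 1 ≤ β) (x₁ x₂ x₃ : Fin k → ℕ)
    (h₁ : ∑ i, x₁ i ^ 2 = S) (h₂ : ∑ i, x₂ i ^ 2 = S) (h₃ : ∑ i, x₃ i ^ 2 = S)
    (h : ∀ i, α * x₁ i + β * x₂ i = (α + β) * x₃ i) : x₁ = x₂ := by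
  have key : ∀ i, (α : ℤ) * β * ((x₁ i : ℤ) - x₂ i) ^ 2 =
      (α + β) * (α * (x₁ i : ℤ) ^ 2 + β * (x₂ i : ℤ) ^ 2 - (α + β) * (x₃ i : ℤ) ^ 2) := by
    intro i
    have hi : (α : ℤ) * x₁ i + β * x₂ i = (α + β) * x₃ i := by exact_mod_cast h i
    linear_combination (-((α : ℤ) * x₁ i + β * x₂ i) - (α + β) * x₃ i) * hi
  have hs : ∑ i, (α : ℤ) * β * ((x₁ i : ℤ) - x₂ i) ^ 2 = 0 := by
    rw [sum_congr rfl fun i _ => key i, ← mul_sum, sum_sub_distrib, sum_add_distrib, ← mul_sum,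
      ← mul_sum, ← mul_sum]
    have e₁ : ∑ i, (x₁ i : ℤ) ^ 2 = S := by exact_mod_cast h₁
    have e₂ : ∑ i, (x₂ i : ℤ) ^ 2 = S := by exact_mod_cast h₂
    have e₃ : ∑ i, (x₃ i : ℤ) ^ 2 = S := by exact_mod_cast h₃
    rw [e₁, e₂, e₃]
    ring
  rw [← mul_sum] at hs
  have hαβ : (α : ℤ) * β ≠ 0 := by
    have : 0 < α * β := Nat.mul_pos hα hβ
    exact_mod_cast this.ne'
  have h0 := (mul_eq_zero.1 hs).resolve_left hαβ
  rw [sum_eq_zero_iff_of_nonneg fun i _ => sq_nonneg _] at h0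
  funext i
  have := pow_eq_zero_iff (n := 2) (by norm_num) |>.1 (h0 i (mem_univ i))
  have h5 : (x₁ i : ℤ) = x₂ i := by linarith
  exact_mod_cast h5

theorem Beh_triv (q : ℕ) (hq : 1 ≤ q) : ∃ D : Finset ℕ, (∀ d ∈ D, d < q) ∧ D.card = 1 ∧
    ∀ α β : ℕ, 1 ≤ α → α ≤ 5 → 1 ≤ β → β ≤ 5 → ∀ d₁ ∈ D, ∀ d₂ ∈ D, ∀ d₃ ∈ D,
      α * d₁ + β * d₂ = (α + β) * d₃ → d₁ = d₂ := by
  refine ⟨{0}, ?_, by simp, ?_⟩
  · intro d hd
    rw [mem_singleton] at hd
    omega
  · intro α β _ _ _ _ d₁ h₁ d₂ h₂ _ _ _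
    rw [mem_singleton] at h₁ h₂
    rw [h₁, h₂]

theorem behrend (δ : ℝ) (hδ : 0 < δ) : ∃ c : ℝ, 0 < c ∧ ∀ q : ℕ, 1 ≤ q → ∃ D : Finset ℕ,
    (∀ d ∈ D, d < q) ∧ c * (q : ℝ) ^ (1 - δ) ≤ (D.card : ℝ) ∧
    ∀ α β : ℕ, 1 ≤ α → α ≤ 5 → 1 ≤ β → β ≤ 5 → ∀ d₁ ∈ D, ∀ d₂ ∈ D, ∀ d₃ ∈ D,
      α * d₁ + β * d₂ = (α + β) * d₃ → d₁ = d₂ := by
  rcases le_or_gt 1 δ with h1 | h1
  · refine ⟨1, one_pos, fun q hq => ?_⟩
    obtain ⟨D, hD, hc, hE⟩ := Beh_triv q hq
    refine ⟨D, hD, ?_, hE⟩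
    rw [hc, one_mul, Nat.cast_one]
    exact Real.rpow_le_one_of_one_le_of_nonpos (by exact_mod_cast hq) (by linarith)
  · obtain ⟨k, hk3, hkδ⟩ : ∃ k : ℕ, 3 ≤ k ∧ 3 ≤ (k : ℝ) * δ := by
      refine ⟨⌈3 / δ⌉₊ + 3, by omega, ?_⟩
      have h2 : 3 / δ ≤ (⌈3 / δ⌉₊ : ℝ) := Nat.le_ceil _
      rw [div_le_iff₀ hδ] at h2
      push_cast
      nlinarith
    have hk0 : (0 : ℝ) < k := by exact_mod_cast (by omega : 0 < k)
    refine ⟨1 / (k * 20 ^ k), by positivity, fun q hq => ?_⟩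
    have hq1 : (1 : ℝ) ≤ q := by exact_mod_cast hq
    rcases lt_or_ge q (10 ^ k) with hs | hs
    · obtain ⟨D, hD, hc, hE⟩ := Beh_triv q hq
      refine ⟨D, hD, ?_, hE⟩
      rw [hc, Nat.cast_one, one_div, inv_mul_le_iff₀ (by positivity), mul_one]
      calc (q : ℝ) ^ (1 - δ) ≤ (q : ℝ) ^ (1 : ℝ) :=
            Real.rpow_le_rpow_of_exponent_le hq1 (by linarith)
        _ = q := Real.rpow_one _
        _ ≤ (10 : ℝ) ^ k := by exact_mod_cast hs.le
        _ ≤ (20 : ℝ) ^ k := by gcongr; norm_num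
        _ ≤ k * 20 ^ k := by
            have : (1 : ℝ) ≤ k := by exact_mod_cast (by omega : 1 ≤ k)
            nlinarith [pow_pos (show (0 : ℝ) < 20 by norm_num) k]
    · set r := Nat.findGreatest (fun r => (10 * r) ^ k ≤ q) q with hr
      have hr1 : 1 ≤ r := Nat.le_findGreatest hq (by simpa using hs)
      have hP : (10 * r) ^ k ≤ q := by
        have := Nat.findGreatest_spec (P := fun r => (10 * r) ^ k ≤ q) hq (by simpa using hs)
        exact this
      have hk1 : k ≠ 0 := by omega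
      have hrq : r + 1 ≤ q := by
        have h2 : 10 * r ≤ (10 * r) ^ k := Nat.le_self_pow hk1 _
        omega
      have hN : q < (10 * (r + 1)) ^ k := by
        by_contra hcon
        have := Nat.findGreatest_is_greatest (P := fun r => (10 * r) ^ k ≤ q) (n := q)
          (k := r + 1) (by omega) hrq
        exact this (not_lt.1 hcon)
      obtain ⟨S, hS⟩ := Behrend.exists_large_sphere k r
      have hlt : ∀ x ∈ Behrend.sphere k r S, ∀ i, x i < r := fun x hx =>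
        Behrend.mem_box.1 (Behrend.sphere_subset_box hx)
      have hnorm : ∀ x ∈ Behrend.sphere k r S, ∑ i, x i ^ 2 = S := fun x hx =>
        (mem_filter.1 hx).2
      have hinj : Set.InjOn (Behrend.map (10 * r)) (Behrend.sphere k r S : Set (Fin k → ℕ)) := by
        intro x hx y hy hxy
        refine Behrend.map_injOn (d := 10 * r) ?_ ?_ hxy
        · intro i
          have := hlt x hx i
          show x i < 10 * r
          omega
        · intro i
          have := hlt y hy i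
          show y i < 10 * r
          omega
      refine ⟨(Behrend.sphere k r S).image (Behrend.map (10 * r)), ?_, ?_, ?_⟩
      · intro d hd
        obtain ⟨x, hx, rfl⟩ := mem_image.1 hd
        refine lt_of_lt_of_le (Beh_map_lt k (10 * r) x (by omega) fun i => ?_) hP
        have := hlt x hx i
        omega
      · rw [card_image_of_injOn hinj]
        refine le_trans ?_ hS
        have hr0 : (0 : ℝ) < r := by exact_mod_cast hr1
        have hr1' : (1 : ℝ) ≤ r := by exact_mod_cast hr1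
        have hqle : (q : ℝ) ≤ (20 * r : ℝ) ^ k := by
          have h2 : (10 * (r + 1)) ^ k ≤ (20 * r) ^ k := Nat.pow_le_pow_left (by omega) k
          have h3 : q ≤ (20 * r) ^ k := hN.le.trans h2
          exact_mod_cast h3
        have h4 : (q : ℝ) ^ (1 - δ) ≤ (20 : ℝ) ^ k * (r : ℝ) ^ (k - 2 : ℕ) := by
          calc (q : ℝ) ^ (1 - δ) ≤ ((20 * r : ℝ) ^ k) ^ (1 - δ) :=
                Real.rpow_le_rpow (by positivity) hqle (by linarith)
            _ = (20 * r : ℝ) ^ ((k : ℝ) * (1 - δ)) := by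
                rw [← Real.rpow_natCast, ← Real.rpow_mul (by positivity)]
            _ = (20 : ℝ) ^ ((k : ℝ) * (1 - δ)) * (r : ℝ) ^ ((k : ℝ) * (1 - δ)) :=
                Real.mul_rpow (by norm_num) hr0.le
            _ ≤ (20 : ℝ) ^ (k : ℝ) * (r : ℝ) ^ ((k - 2 : ℕ) : ℝ) := by
                have h5 : ((k - 2 : ℕ) : ℝ) = (k : ℝ) - 2 := by
                  rw [Nat.cast_sub (by omega)]; norm_num
                refine mul_le_mul (Real.rpow_le_rpow_of_exponent_le (by norm_num) ?_)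
                  (Real.rpow_le_rpow_of_exponent_le hr1' ?_) (by positivity) (by positivity)
                · nlinarith
                · rw [h5]; nlinarith
            _ = (20 : ℝ) ^ k * (r : ℝ) ^ (k - 2 : ℕ) := by
                rw [Real.rpow_natCast, Real.rpow_natCast]
        have h6 : (r : ℝ) ^ k = (r : ℝ) ^ (k - 2 : ℕ) * (r : ℝ) ^ 2 := by
          rw [← pow_add]; congr 1; omega
        push_cast
        rw [h6]
        calc 1 / ((k : ℝ) * 20 ^ k) * (q : ℝ) ^ (1 - δ)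
            ≤ 1 / ((k : ℝ) * 20 ^ k) * ((20 : ℝ) ^ k * (r : ℝ) ^ (k - 2 : ℕ)) :=
              mul_le_mul_of_nonneg_left h4 (by positivity)
          _ = (r : ℝ) ^ (k - 2 : ℕ) * (r : ℝ) ^ 2 / (k * (r : ℝ) ^ 2) := by
              field_simp
      · intro α β hα hα5 hβ hβ5 d₁ hd₁ d₂ hd₂ d₃ hd₃ heq
        obtain ⟨x₁, hx₁, rfl⟩ := mem_image.1 hd₁
        obtain ⟨x₂, hx₂, rfl⟩ := mem_image.1 hd₂
        obtain ⟨x₃, hx₃, rfl⟩ := mem_image.1 hd₃
        have hadd : Behrend.map (10 * r) (α • x₁ + β • x₂) =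
            Behrend.map (10 * r) ((α + β) • x₃) := by
          rw [map_add, map_nsmul, map_nsmul, map_nsmul]
          simpa [nsmul_eq_mul] using heq
        have hvec : α • x₁ + β • x₂ = (α + β) • x₃ := by
          refine Behrend.map_injOn (d := 10 * r) ?_ ?_ hadd
          · intro i
            have e1 := hlt x₁ hx₁ i
            have e2 := hlt x₂ hx₂ i
            show α * x₁ i + β * x₂ i < 10 * r
            have e3 : α * x₁ i ≤ 5 * x₁ i := Nat.mul_le_mul_right _ hα5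
            have e4 : β * x₂ i ≤ 5 * x₂ i := Nat.mul_le_mul_right _ hβ5
            omega
          · intro i
            have e1 := hlt x₃ hx₃ i
            show (α + β) * x₃ i < 10 * r
            have e3 : (α + β) * x₃ i ≤ 10 * x₃ i := Nat.mul_le_mul_right _ (by omega)
            omega
        have hx : x₁ = x₂ := Beh_eq hα hβ x₁ x₂ x₃ (hnorm _ hx₁) (hnorm _ hx₂) (hnorm _ hx₃)
          fun i => by
            have := congrFun hvec i
            simpa using this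
        rw [hx]

end Pool.Agent.FP
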