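import Pool.Agent.Lib.MP_0a1b52_lc_FP.Defs

/-!
# Project FP, module BLK: six vertex blocks with dense colour classes between them
-/

set_option autoImplicit false

open Finset

open scoped Classical in
/-- the pairs of positions in two blocks whose edge has the class `t` -/
noncomputable def Pool.Agent.FP.Blk_set {n : ℕ} (c : Pool.Agent.FP.EdgeVar n → Fin 3) (t : Fin 3)
    (L b b' : ℕ) : Finset (ℕ × ℕ) :=
  (range L ×ˢ range L).filter fun p => ∃ (hu : b * L + p.1 < n) (hv : b' * L + p.2 < n),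
    Pool.Agent.FP.Col c t ⟨b * L + p.1, hu⟩ ⟨b' * L + p.2, hv⟩

namespace Pool.Agent.FP

lemma Blk_S1 (n L : ℕ) (hL : 0 < L) :
    ((range n ×ˢ range n).filter fun p : ℕ × ℕ => p.1 ≤ p.2 ∧ p.1 / L = p.2 / L).card ≤ n * L := by
  have h : ((range n ×ˢ range n).filter fun p : ℕ × ℕ => p.1 ≤ p.2 ∧ p.1 / L = p.2 / L).card ≤
      (range n ×ˢ range L).card := by
    refine Finset.card_le_card_of_injOn (fun p => (p.1, p.2 - p.1)) ?_ ?_
    · rintro ⟨u, v⟩ hp
      simp only [coe_filter, mem_product, mem_range, Set.mem_setOf_eq] at hp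
      obtain ⟨⟨hu, hv⟩, huv, he⟩ := hp
      simp only [coe_product, coe_range, Set.mem_prod, Set.mem_Iio]
      refine ⟨hu, ?_⟩
      have h1 := Nat.div_add_mod u L
      have h2 := Nat.div_add_mod v L
      have h3 := Nat.mod_lt v hL
      rw [he] at h1
      omega
    · rintro ⟨u, v⟩ hp ⟨u', v'⟩ hp' h
      simp only [coe_filter, mem_product, mem_range, Set.mem_setOf_eq] at hp hp'
      simp only [Prod.mk.injEq] at h ⊢
      omega
  rwa [card_product, card_range, card_range] at h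

lemma Blk_cover (L : ℕ) (hL : 0 < L) (U : Finset ℕ) (u : ℕ) (hu : u / L ∈ U) :
    u ∈ U.biUnion fun b => Ico (b * L) (b * L + L) := by
  rw [mem_biUnion]
  refine ⟨u / L, hu, ?_⟩
  have h1 := Nat.div_add_mod u L
  have h3 := Nat.mod_lt u hL
  rw [mem_Ico, Nat.mul_comm (u / L) L]
  omega

lemma Blk_cover_card (L : ℕ) (U : Finset ℕ) (hU : U.card ≤ 4) :
    (U.biUnion fun b => Ico (b * L) (b * L + L)).card ≤ 4 * L := by
  refine le_trans Finset.card_biUnion_le ?_
  simp only [Nat.card_Ico, Nat.add_sub_cancel_left, sum_const, smul_eq_mul]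
  exact Nat.mul_le_mul_right L hU

lemma Blk_S2 (n L : ℕ) (hL : 0 < L) (U : Finset ℕ) (hU : U.card ≤ 4) :
    ((range n ×ˢ range n).filter fun p : ℕ × ℕ => p.1 / L ∈ U).card ≤ 4 * L * n := by
  refine le_trans (Finset.card_le_card (t := (U.biUnion fun b => Ico (b * L) (b * L + L)) ×ˢ
    range n) ?_) ?_
  · rintro ⟨u, v⟩ hp
    simp only [mem_filter, mem_product, mem_range] at hp
    exact mem_product.2 ⟨Blk_cover L hL U u hp.2, mem_range.2 hp.1.2⟩
  · rw [card_product, card_range]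
    exact Nat.mul_le_mul_right n (Blk_cover_card L U hU)

lemma Blk_S3 (n L : ℕ) (hL : 0 < L) (U : Finset ℕ) (hU : U.card ≤ 4) :
    ((range n ×ˢ range n).filter fun p : ℕ × ℕ => p.2 / L ∈ U).card ≤ n * (4 * L) := by
  refine le_trans (Finset.card_le_card (t := range n ×ˢ
    (U.biUnion fun b => Ico (b * L) (b * L + L))) ?_) ?_
  · rintro ⟨u, v⟩ hp
    simp only [mem_filter, mem_product, mem_range] at hp
    exact mem_product.2 ⟨mem_range.2 hp.1.1, Blk_cover L hL U v hp.2⟩
  · rw [card_product, card_range]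
    exact Nat.mul_le_mul_left n (Blk_cover_card L U hU)

lemma Blk_S4 (n L s : ℕ) :
    ((range n ×ˢ range n).filter fun p : ℕ × ℕ => n < (p.2 / L + 1) * L + s + 1).card ≤
      n * (L + s + 1) := by
  refine le_trans (Finset.card_le_card (t := range n ×ˢ Ico (n - (L + s + 1)) n) ?_) ?_
  · rintro ⟨u, v⟩ hp
    simp only [mem_filter, mem_product, mem_range] at hp
    refine mem_product.2 ⟨mem_range.2 hp.1.1, mem_Ico.2 ⟨?_, hp.1.2⟩⟩
    have h1 := Nat.div_mul_le_self v L
    have h2 := hp.2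
    rw [Nat.add_mul, Nat.one_mul] at h2
    omega
  · rw [card_product, card_range, Nat.card_Ico]
    exact Nat.mul_le_mul_left n (by omega)

lemma Blk_step (n : ℕ) (hn : 10000 ≤ n) (c : EdgeVar n → Fin 3) (t : Fin 3)
    (ht : n ^ 2 ≤ 10 * (Finset.univ.filter fun e => c e = t).card)
    (U : Finset ℕ) (hU : U.card ≤ 4) :
    ∃ b b' : ℕ, b < b' ∧ b ∉ U ∧ b' ∉ U ∧ (b' + 1) * (n / 1000) + Nat.sqrt n + 1 ≤ n ∧
      (n / 1000) ^ 2 ≤ 10 * (Blk_set c t (n / 1000) b b').card := by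
  classical
  by_contra hcon
  push Not at hcon
  set L := n / 1000 with hLdef
  have hL : 0 < L := by omega
  have hLn : 1000 * L ≤ n := by omega
  set s := Nat.sqrt n with hsdef
  have hs1 : s * s ≤ n := Nat.sqrt_le n
  have hs2 : 100 ≤ s := by
    rw [hsdef, Nat.le_sqrt]
    omega
  have hs3 : 100 * s ≤ n := le_trans (Nat.mul_le_mul_right s hs2) hs1
  set E := Finset.univ.filter fun e : EdgeVar n => c e = t with hE
  set S : Finset (ℕ × ℕ) := E.image fun e => ((e.1.1 : ℕ), (e.1.2 : ℕ)) with hS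
  have hScard : S.card = E.card := by
    refine Finset.card_image_of_injective _ ?_
    rintro ⟨⟨u, v⟩, h⟩ ⟨⟨u', v'⟩, h'⟩ he
    simp only [Prod.mk.injEq] at he
    exact Subtype.ext (Prod.ext (Fin.ext he.1) (Fin.ext he.2))
  have hmemS : ∀ p ∈ S, ∃ (hu : p.1 < n) (hv : p.2 < n), p.1 < p.2 ∧
      Col c t ⟨p.1, hu⟩ ⟨p.2, hv⟩ := by
    intro p hp
    rw [hS, mem_image] at hp
    obtain ⟨e, he, rfl⟩ := hp
    rw [hE, mem_filter] at he
    exact ⟨e.1.1.2, e.1.2.2, e.2, e, he.2, Or.inl rfl⟩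
  set S5 : Finset (ℕ × ℕ) := S.filter fun p => p.1 / L < p.2 / L ∧ p.1 / L ∉ U ∧ p.2 / L ∉ U ∧
    (p.2 / L + 1) * L + s + 1 ≤ n with hS5
  -- the good edges
  set I : Finset ((_ : ℕ) × ℕ) := (range (n / L)).sigma fun b' => range b' with hI
  have hIcard : 2 * I.card ≤ (n / L) * (n / L) := by
    rw [hI, card_sigma]
    simp only [card_range]
    have h := Finset.sum_range_id_mul_two (n / L)
    rw [Nat.mul_comm, h]
    exact Nat.mul_le_mul_left _ (Nat.sub_le _ _)
  have hmaps : ∀ p ∈ S5, (⟨p.2 / L, p.1 / L⟩ : (_ : ℕ) × ℕ) ∈ I := by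
    intro p hp
    rw [hS5, mem_filter] at hp
    obtain ⟨-, h1, -, -, h4⟩ := hp
    rw [hI, mem_sigma, mem_range, mem_range]
    refine ⟨?_, h1⟩
    change p.2 / L < n / L
    rw [Nat.lt_iff_add_one_le, Nat.le_div_iff_mul_le hL]
    omega
  have hfib : ∀ q ∈ I, 10 * (S5.filter fun p => (⟨p.2 / L, p.1 / L⟩ : (_ : ℕ) × ℕ) = q).card ≤
      L ^ 2 := by
    rintro ⟨b', b⟩ -
    by_cases hne : (S5.filter fun p => (⟨p.2 / L, p.1 / L⟩ : (_ : ℕ) × ℕ) = ⟨b', b⟩).Nonempty
    · obtain ⟨p, hp⟩ := hne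
      rw [mem_filter, hS5, mem_filter] at hp
      obtain ⟨⟨-, h1, h2, h3, h4⟩, h5⟩ := hp
      have h6 : p.2 / L = b' := congrArg Sigma.fst h5
      have h7 : p.1 / L = b := by
        have := congrArg (fun q : (_ : ℕ) × ℕ => q.2) h5
        exact this
      rw [h6, h7] at h1
      rw [h7] at h2
      rw [h6] at h3 h4
      have h8 := hcon b b' h1 h2 h3 h4
      refine le_trans (Nat.mul_le_mul_left 10 ?_) h8.le
      refine Finset.card_le_card_of_injOn (fun p => (p.1 % L, p.2 % L)) ?_ ?_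
      · intro p hp
        rw [mem_coe, mem_filter, hS5, mem_filter] at hp
        obtain ⟨⟨hpS, -⟩, hq⟩ := hp
        have h6 : p.2 / L = b' := congrArg Sigma.fst hq
        have h7 : p.1 / L = b := by
          have := congrArg (fun q : (_ : ℕ) × ℕ => q.2) hq
          exact this
        obtain ⟨hu, hv, -, hcol⟩ := hmemS p hpS
        have e1 : b * L + p.1 % L = p.1 := by
          rw [← h7, Nat.mul_comm]; exact Nat.div_add_mod p.1 L
        have e2 : b' * L + p.2 % L = p.2 := by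
          rw [← h6, Nat.mul_comm]; exact Nat.div_add_mod p.2 L
        rw [mem_coe, Blk_set, mem_filter, mem_product, mem_range, mem_range]
        refine ⟨⟨Nat.mod_lt _ hL, Nat.mod_lt _ hL⟩, ?_⟩
        simp only [e1, e2]
        exact ⟨hu, hv, hcol⟩
      · intro p hp p' hp' he
        rw [mem_coe, mem_filter] at hp hp'
        have hq := hp.2.trans hp'.2.symm
        have h6 : p.2 / L = p'.2 / L := congrArg Sigma.fst hq
        have h7 : p.1 / L = p'.1 / L := by
          have := congrArg (fun q : (_ : ℕ) × ℕ => q.2) hq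
          exact this
        simp only [Prod.mk.injEq] at he
        refine Prod.ext ?_ ?_
        · rw [← Nat.div_add_mod p.1 L, ← Nat.div_add_mod p'.1 L, h7, he.1]
        · rw [← Nat.div_add_mod p.2 L, ← Nat.div_add_mod p'.2 L, h6, he.2]
    · rw [not_nonempty_iff_eq_empty] at hne
      rw [hne, card_empty, mul_zero]
      exact Nat.zero_le _
  have hS5card : 20 * S5.card ≤ n * n := by
    rw [Finset.card_eq_sum_card_fiberwise hmaps]
    have h1 : 10 * ∑ q ∈ I, (S5.filter fun p => (⟨p.2 / L, p.1 / L⟩ : (_ : ℕ) × ℕ) = q).card ≤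
        I.card * L ^ 2 := by
      rw [Finset.mul_sum]
      refine le_trans (Finset.sum_le_sum hfib) ?_
      rw [sum_const, smul_eq_mul]
    have h2 : n / L * L ≤ n := Nat.div_mul_le_self n L
    have h3 : (n / L * (n / L)) * L ^ 2 ≤ n * n := by
      calc (n / L * (n / L)) * L ^ 2 = (n / L * L) * (n / L * L) := by ring
        _ ≤ n * n := Nat.mul_le_mul h2 h2
    have h4 : 2 * (I.card * L ^ 2) ≤ (n / L * (n / L)) * L ^ 2 := by
      rw [← Nat.mul_assoc]
      exact Nat.mul_le_mul_right _ hIcard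
    omega
  -- covering
  have hcov : S ⊆ ((range n ×ˢ range n).filter fun p : ℕ × ℕ => p.1 ≤ p.2 ∧ p.1 / L = p.2 / L) ∪
      ((range n ×ˢ range n).filter fun p : ℕ × ℕ => p.1 / L ∈ U) ∪
      ((range n ×ˢ range n).filter fun p : ℕ × ℕ => p.2 / L ∈ U) ∪
      ((range n ×ˢ range n).filter fun p : ℕ × ℕ => n < (p.2 / L + 1) * L + s + 1) ∪ S5 := by
    intro p hp
    obtain ⟨hu, hv, hlt, -⟩ := hmemS p hp
    have hdiv : p.1 / L ≤ p.2 / L := Nat.div_le_div_right hlt.le
    simp only [mem_union, mem_filter, mem_product, mem_range, hS5]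
    by_cases h1 : p.1 / L = p.2 / L
    · exact Or.inl (Or.inl (Or.inl (Or.inl ⟨⟨hu, hv⟩, hlt.le, h1⟩)))
    by_cases h2 : p.1 / L ∈ U
    · exact Or.inl (Or.inl (Or.inl (Or.inr ⟨⟨hu, hv⟩, h2⟩)))
    by_cases h3 : p.2 / L ∈ U
    · exact Or.inl (Or.inl (Or.inr ⟨⟨hu, hv⟩, h3⟩))
    by_cases h4 : n < (p.2 / L + 1) * L + s + 1
    · exact Or.inl (Or.inr ⟨⟨hu, hv⟩, h4⟩)
    · exact Or.inr ⟨hp, lt_of_le_of_ne hdiv h1, h2, h3, not_lt.1 h4⟩
  have hcard := Finset.card_le_card hcov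
  have k1 := Blk_S1 n L hL
  have k2 := Blk_S2 n L hL U hU
  have k3 := Blk_S3 n L hL U hU
  have k4 := Blk_S4 n L s
  have hub : S.card ≤ n * L + 4 * L * n + n * (4 * L) + n * (L + s + 1) + S5.card := by
    refine le_trans hcard ?_
    refine le_trans (card_union_le _ _) (Nat.add_le_add_right ?_ _)
    refine le_trans (card_union_le _ _) (Nat.add_le_add ?_ k4)
    refine le_trans (card_union_le _ _) (Nat.add_le_add ?_ k3)
    exact le_trans (card_union_le _ _) (Nat.add_le_add k1 k2)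
  rw [hScard] at hub
  have m1 : 1000 * (n * L) ≤ n * n := by
    calc 1000 * (n * L) = n * (1000 * L) := by ring
      _ ≤ n * n := Nat.mul_le_mul_left n hLn
  have m2 : 100 * (n * s) ≤ n * n := by
    calc 100 * (n * s) = n * (100 * s) := by ring
      _ ≤ n * n := Nat.mul_le_mul_left n hs3
  have m3 : 10000 * n ≤ n * n := Nat.mul_le_mul_right n hn
  have e1 : n ^ 2 = n * n := sq n
  have e2 : n * L + 4 * L * n + n * (4 * L) + n * (L + s + 1) = 10 * (n * L) + n * s + n := by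
    ring
  rw [e2] at hub
  rw [e1] at ht
  have e3 : 0 < n * n := by positivity
  omega

theorem blocks : ∃ n₀ : ℕ, ∀ n ≥ n₀, ∀ c : EdgeVar n → Fin 3,
    (∀ t, n ^ 2 ≤ 10 * (Finset.univ.filter fun e => c e = t).card) →
    ∃ φ : Fin 6 → Fin (n / 1000) → Fin n,
      (∀ i j a b, φ i a = φ j b → i = j ∧ a = b) ∧
      (∀ i a, (φ i a : ℕ) + (Nat.sqrt n + 1) ≤ n - 1) ∧
      ∀ t : Fin 3, (n / 1000) ^ 2 ≤ 10 * Nat.card {ab : Fin (n / 1000) × Fin (n / 1000) //
        Col c t (φ ⟨2 * t, by omega⟩ ab.1) (φ ⟨2 * t + 1, by omega⟩ ab.2)} := by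
  classical
  refine ⟨10000, fun n hn c hc => ?_⟩
  obtain ⟨b0, b1, h01, -, -, v1, N1⟩ := Blk_step n hn c 0 (hc 0) ∅ (by simp)
  obtain ⟨b2, b3, h23, u2, u3, v3, N3⟩ := Blk_step n hn c 1 (hc 1) {b0, b1}
    (le_trans (Finset.card_le_two) (by norm_num))
  obtain ⟨b4, b5, h45, u4, u5, v5, N5⟩ := Blk_step n hn c 2 (hc 2) {b0, b1, b2, b3}
    (Finset.card_le_four)
  simp only [mem_insert, mem_singleton, not_or] at u2 u3 u4 u5
  set L := n / 1000 with hLdef
  have hL : 0 < L := by omega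
  let β : Fin 6 → ℕ := ![b0, b1, b2, b3, b4, b5]
  have hβinj : Function.Injective β := by
    intro i j hij
    fin_cases i <;> fin_cases j <;> simp [β] at hij ⊢ <;> omega
  have hβ : ∀ i, (β i + 1) * L + Nat.sqrt n + 1 ≤ n := by
    have mono : ∀ x y : ℕ, x < y → (y + 1) * L + Nat.sqrt n + 1 ≤ n →
        (x + 1) * L + Nat.sqrt n + 1 ≤ n := by
      intro x y hxy h
      have := Nat.mul_le_mul_right L (Nat.succ_le_succ hxy.le)
      simp only [Nat.succ_eq_add_one] at this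
      omega
    intro i
    fin_cases i
    · exact mono _ _ h01 v1
    · exact v1
    · exact mono _ _ h23 v3
    · exact v3
    · exact mono _ _ h45 v5
    · exact v5
  have hlt : ∀ (i : Fin 6) (a : Fin L), β i * L + a + (Nat.sqrt n + 1) ≤ n - 1 := by
    intro i a
    have h1 := hβ i
    have h2 := a.2
    rw [Nat.add_mul, Nat.one_mul] at h1
    omega
  refine ⟨fun i a => ⟨β i * L + a, by have := hlt i a; omega⟩, ?_, ?_, ?_⟩
  · intro i j a b h
    simp only [Fin.mk.injEq] at h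
    have h1 : (β i * L + a) / L = (β j * L + b) / L := by rw [h]
    have e : ∀ (x : ℕ) (a : Fin L), (x * L + a) / L = x := by
      intro x a
      rw [Nat.mul_comm, Nat.mul_add_div hL, Nat.div_eq_of_lt a.2, Nat.add_zero]
    rw [e, e] at h1
    have h2 := hβinj h1
    subst h2
    exact ⟨rfl, Fin.ext (by omega)⟩
  · intro i a
    exact hlt i a
  · have key : ∀ (t : Fin 3) (i j : Fin 6), L ^ 2 ≤ 10 * (Blk_set c t L (β i) (β j)).card →
        L ^ 2 ≤ 10 * Nat.card {ab : Fin L × Fin L //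
          Col c t ⟨β i * L + ab.1, by have := hlt i ab.1; omega⟩
            ⟨β j * L + ab.2, by have := hlt j ab.2; omega⟩} := by
      intro t i j h
      refine le_trans h (Nat.mul_le_mul_left 10 ?_)
      rw [Nat.card_eq_fintype_card, Fintype.card_subtype]
      refine Finset.card_le_card_of_surjOn (fun ab => ((ab.1 : ℕ), (ab.2 : ℕ))) ?_
      rintro ⟨x, y⟩ hxy
      rw [mem_coe, Blk_set, mem_filter, mem_product, mem_range, mem_range] at hxy
      obtain ⟨⟨hx, hy⟩, hu, hv, hcol⟩ := hxy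
      exact ⟨(⟨x, hx⟩, ⟨y, hy⟩), by simpa using hcol, rfl⟩
    intro t
    fin_cases t
    · exact key 0 0 1 N1
    · exact key 1 2 3 N3
    · exact key 2 4 5 N5

end Pool.Agent.FP
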