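import Mathlib
import Pool.Agent.Lib.MP_b573ec_lc_ST.LinCount

/-!
# Three-party disjointness: few star-closed sets do not cover the disjoint triples
-/

namespace Pool.Agent.FP

open Pool.Agent.ST.Lin

/-- the bits of the group `t` -/
def Disj_gr {g : ℕ} (x : Fin (20 * g) → Bool) (t : Fin g) : Fin 20 → Bool := fun s =>
  x ⟨20 * t.val + s.val, by have := t.isLt; have := s.isLt; omega⟩

theorem Disj_grp_eq {g : ℕ} (x y z : Fin (20 * g) → Bool) (t : Fin g) :
    grp x y z t.val = ∑ s : Fin 20, (Disj_gr x t s && Disj_gr y t s && Disj_gr z t s).toNat := by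
  unfold grp Disj_gr
  symm
  refine Finset.sum_bij (fun s _ => (⟨20 * t.val + s.val, by
    have := t.isLt; have := s.isLt; omega⟩ : Fin (20 * g))) ?_ ?_ ?_ ?_
  · intro s _
    rw [Finset.mem_filter]
    refine ⟨Finset.mem_univ _, ?_⟩
    have := s.isLt
    show (20 * t.val + s.val) / 20 = t.val
    omega
  · intro s _ s' _ h
    have h1 := congrArg Fin.val h
    simp only at h1
    apply Fin.ext
    omega
  · intro b hb
    rw [Finset.mem_filter] at hb
    have h2 := hb.2
    refine ⟨⟨b.val - 20 * t.val, by omega⟩, Finset.mem_univ _, ?_⟩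
    apply Fin.ext
    show 20 * t.val + (b.val - 20 * t.val) = b.val
    omega
  · intro s _
    rfl

/-- the index type: a group and three patterns with odd inner product -/
def Disj_Idx (g : ℕ) : Type :=
  {p : Fin g × (Fin 20 → Bool) × (Fin 20 → Bool) × (Fin 20 → Bool) //
    (∑ s, (p.2.1 s && p.2.2.1 s && p.2.2.2 s).toNat) % 2 = 1}

theorem Disj_emb (g m : ℕ) (h : g * 2 ^ 60 ≤ m) : Nonempty (Disj_Idx g ↪ Fin m) := by
  classical
  have : Fintype (Disj_Idx g) := by unfold Disj_Idx; infer_instance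
  apply Function.Embedding.nonempty_of_card_le
  rw [Fintype.card_fin]
  refine le_trans ?_ h
  have h1 : Fintype.card (Disj_Idx g) ≤
      Fintype.card (Fin g × (Fin 20 → Bool) × (Fin 20 → Bool) × (Fin 20 → Bool)) :=
    Fintype.card_le_of_injective (fun p : Disj_Idx g => p.1) Subtype.val_injective
  refine le_trans h1 (le_of_eq ?_)
  rw [Fintype.card_prod, Fintype.card_prod, Fintype.card_prod, Fintype.card_fin, Fintype.card_fun,
    Fintype.card_fin, Fintype.card_bool, ← pow_add, ← pow_add]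

theorem disj_no_cover (m K : ℕ)
    (T : Fin K → (Fin m → Bool) → (Fin m → Bool) → (Fin m → Bool) → Prop)
    (hstar : ∀ k x x' y y' z z', T k x' y z → T k x y' z → T k x y z' → T k x y z)
    (hT : ∀ k x y z, T k x y z → ∀ i, ¬ (x i = true ∧ y i = true ∧ z i = true))
    (hcov : ∀ x y z, (∀ i, ¬ (x i = true ∧ y i = true ∧ z i = true)) → ∃ k, T k x y z) :
    2 ^ (m / 2 ^ 60) ≤ K := by
  classical
  obtain ⟨e⟩ := Disj_emb (m / 2 ^ 60) m (Nat.div_mul_le_self m _)
  generalize m / 2 ^ 60 = g at e ⊢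
  let X : (Fin (20 * g) → Bool) → Fin m → Bool := fun x i =>
    decide (∃ p : Disj_Idx g, e p = i ∧ p.1.2.1 = Disj_gr x p.1.1)
  let Y : (Fin (20 * g) → Bool) → Fin m → Bool := fun y i =>
    decide (∃ p : Disj_Idx g, e p = i ∧ p.1.2.2.1 = Disj_gr y p.1.1)
  let Z : (Fin (20 * g) → Bool) → Fin m → Bool := fun z i =>
    decide (∃ p : Disj_Idx g, e p = i ∧ p.1.2.2.2 = Disj_gr z p.1.1)
  have key : ∀ x y z, (∀ i, ¬ (X x i = true ∧ Y y i = true ∧ Z z i = true)) ↔ Zero x y z := by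
    intro x y z
    constructor
    · intro h t ht
      by_contra hne
      have h1 := Disj_grp_eq x y z ⟨t, ht⟩
      have h2 : (∑ s : Fin 20, (Disj_gr x ⟨t, ht⟩ s && Disj_gr y ⟨t, ht⟩ s &&
          Disj_gr z ⟨t, ht⟩ s).toNat) % 2 = 1 := by
        rw [← h1]
        show grp x y z t % 2 = 1
        omega
      let p : Disj_Idx g := ⟨(⟨t, ht⟩, Disj_gr x ⟨t, ht⟩, Disj_gr y ⟨t, ht⟩, Disj_gr z ⟨t, ht⟩), h2⟩
      exact h (e p) ⟨decide_eq_true ⟨p, rfl, rfl⟩, decide_eq_true ⟨p, rfl, rfl⟩,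
        decide_eq_true ⟨p, rfl, rfl⟩⟩
    · rintro h i ⟨hx, hy, hz⟩
      obtain ⟨p, hp, hpx⟩ := of_decide_eq_true hx
      obtain ⟨p', hp', hpy⟩ := of_decide_eq_true hy
      obtain ⟨p'', hp'', hpz⟩ := of_decide_eq_true hz
      have e1 : p' = p := e.injective (hp'.trans hp.symm)
      have e2 : p'' = p := e.injective (hp''.trans hp.symm)
      subst e1
      subst e2
      have h1 := Disj_grp_eq x y z p''.1.1
      have h2 := p''.2
      rw [hpx, hpy, hpz, ← h1] at h2
      have h3 := h p''.1.1.val p''.1.1.isLt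
      omega
  refine no_cover g K (fun k => {p | T k (X p.1) (Y p.2.1) (Z p.2.2)}) ?_ ?_ ?_
  · intro k x x' y y' z z' h1 h2 h3
    exact hstar k _ _ _ _ _ _ h1 h2 h3
  · intro k x y z h
    exact (key x y z).1 (hT k _ _ _ h)
  · intro x y z h
    obtain ⟨k, hk⟩ := hcov (X x) (Y y) (Z z) ((key x y z).2 h)
    exact ⟨k, hk⟩

end Pool.Agent.FP
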