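import Pool.Agent.Lib.MP_0a1b52_lc_FP.ClqA
import Pool.Agent.Lib.MP_0a1b52_lc_FP.Disj

/-!
# Disjointness is a projection of the clique function
-/

set_option autoImplicit false

namespace Pool.Agent.FP

theorem clique_cover {n m K : ℕ} (c : EdgeVar n → Fin 3) (w : Fin m → Fin 6 → Fin n)
    (part : Fin n → Fin 6) (hpart : ∀ i j, part (w i j) = j)
    (hbase : ∀ i j, (w i j : ℕ) + (Nat.sqrt n + 1) ≤ n - 1)
    (hn : 36 ≤ n)
    (hcol : ∀ (i : Fin m) (t : Fin 3), Col c t (w i ⟨2 * t, by omega⟩) (w i ⟨2 * t + 1, by omega⟩))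
    (hedge : ∀ i i' (j j' : Fin 6), j ≠ j' → w i j = w i' j → w i j' = w i' j' → i = i')
    (hclq : ∀ f : Fin 6 → Fin n, (∀ j j' : Fin 6, j ≠ j' → ∃ i, f j = w i j ∧ f j' = w i j') →
      ∃ i, ∀ j, f j = w i j)
    (T : Fin K → (EdgeVar n → Bool) → Prop) (hstar : ∀ θ, Star c (T θ))
    (hT : ∀ θ x, T θ x → ¬ Clq x) (hcov : ∀ x, ¬ Clq x → ∃ θ, T θ x) :
    2 ^ (m / 2 ^ 60) ≤ K := by
  have hiff := Clq_iff w part hpart hbase hn hedge hclq
  refine disj_no_cover m K (fun k x y z => T k (Clq_G w ![x, y, z])) ?_ ?_ ?_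
  · intro k x x' y y' z z' h0 h1 h2
    refine hstar k _ ![Clq_G w ![x', y, z], Clq_G w ![x, y', z], Clq_G w ![x, y, z']] ?_ ?_
    · intro t e he
      fin_cases t
      · exact Clq_indep c w hcol _ _ 0 (by intro t' ht'; fin_cases t' <;> simp_all) e he
      · exact Clq_indep c w hcol _ _ 1 (by intro t' ht'; fin_cases t' <;> simp_all) e he
      · exact Clq_indep c w hcol _ _ 2 (by intro t' ht'; fin_cases t' <;> simp_all) e he
    · intro t
      fin_cases t
      · exact h0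
      · exact h1
      · exact h2
  · intro k x y z h i hi
    refine hT k _ h ((hiff _).2 ⟨i, fun t => ?_⟩)
    fin_cases t
    · exact hi.1
    · exact hi.2.1
    · exact hi.2.2
  · intro x y z h
    refine hcov _ fun hC => ?_
    obtain ⟨i, hi⟩ := (hiff _).1 hC
    exact h i ⟨hi 0, hi 1, hi 2⟩

end Pool.Agent.FP
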