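import Mathlib

/-!
# Arithmetic for the embedding
-/

namespace Pool.Agent.FP

/-- the estimate of the number of gadgets -/
theorem Emb_arith (ε δ c₀ : ℝ) (hδ1 : 0 < δ) (hδ0 : δ ≤ 1 / 2) (hδ : δ < ε) (hc : 0 < c₀) :
    ∃ n₀ : ℕ, 12000 ≤ n₀ ∧ ∀ n ≥ n₀, ∀ (q d m : ℕ), q = n / 1000 / 6 →
      c₀ * (q : ℝ) ^ (1 - δ) ≤ (d : ℝ) → q * d ≤ 1000 * m →
      (n : ℝ) ^ (2 - ε) ≤ ((m / 2 ^ 60 : ℕ) : ℝ) := by
  have hC : 0 < c₀ / (1000 * 2 ^ 60 * 12000 ^ 2) := by positivity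
  set C := c₀ / (1000 * 2 ^ 60 * 12000 ^ 2) with hCdef
  have h1 : Filter.Tendsto (fun n : ℕ => (n : ℝ) ^ (ε - δ)) Filter.atTop Filter.atTop :=
    (tendsto_rpow_atTop (by linarith)).comp tendsto_natCast_atTop_atTop
  have h2 : Filter.Tendsto (fun n : ℕ => (n : ℝ) ^ (2 - δ)) Filter.atTop Filter.atTop :=
    (tendsto_rpow_atTop (by linarith)).comp tendsto_natCast_atTop_atTop
  obtain ⟨n₁, hn₁⟩ := Filter.eventually_atTop.1 (h1.eventually_ge_atTop (2 / C))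
  obtain ⟨n₂, hn₂⟩ := Filter.eventually_atTop.1 (h2.eventually_ge_atTop (2 / C))
  refine ⟨max (max n₁ n₂) 12000, le_max_right _ _, fun n hn q d m hq hd hm => ?_⟩
  have hn1 := hn₁ n (le_trans (le_trans (le_max_left _ _) (le_max_left _ _)) hn)
  have hn2 := hn₂ n (le_trans (le_trans (le_max_right _ _) (le_max_left _ _)) hn)
  have hn3 : 12000 ≤ n := le_trans (le_max_right _ _) hn
  have hn0 : (0 : ℝ) < n := by
    have : 0 < n := by omega
    exact_mod_cast this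
  have hq1 : n ≤ 12000 * q := by omega
  have hq2 : (n : ℝ) / 12000 ≤ q := by
    rw [div_le_iff₀ (by norm_num)]
    have : (n : ℝ) ≤ 12000 * q := by exact_mod_cast hq1
    linarith
  have hq0 : (0 : ℝ) < q := lt_of_lt_of_le (by positivity) hq2
  -- the number of gadgets
  have hm1 : (q : ℝ) * d ≤ 1000 * m := by exact_mod_cast hm
  have hm2 : c₀ * (q : ℝ) ^ (2 - δ) ≤ 1000 * m := by
    have e : (2 - δ : ℝ) = 1 + (1 - δ) := by ring
    calc c₀ * (q : ℝ) ^ (2 - δ) = q * (c₀ * (q : ℝ) ^ (1 - δ)) := by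
          rw [e, Real.rpow_add hq0, Real.rpow_one]
          ring
      _ ≤ q * d := mul_le_mul_of_nonneg_left hd hq0.le
      _ ≤ 1000 * m := hm1
  have hm3 : (n : ℝ) ^ (2 - δ) / 12000 ^ 2 ≤ (q : ℝ) ^ (2 - δ) := by
    calc (n : ℝ) ^ (2 - δ) / 12000 ^ 2 ≤ (n : ℝ) ^ (2 - δ) / 12000 ^ (2 - δ) := by
          apply div_le_div_of_nonneg_left (by positivity) (by positivity)
          rw [show (12000 : ℝ) ^ 2 = 12000 ^ (2 : ℝ) by norm_cast]
          exact Real.rpow_le_rpow_of_exponent_le (by norm_num) (by linarith)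
      _ = ((n : ℝ) / 12000) ^ (2 - δ) := by
          rw [Real.div_rpow hn0.le (by norm_num)]
      _ ≤ (q : ℝ) ^ (2 - δ) := Real.rpow_le_rpow (by positivity) hq2 (by linarith)
  have hm4 : C * (n : ℝ) ^ (2 - δ) ≤ (m : ℝ) / 2 ^ 60 := by
    have h3 : c₀ * ((n : ℝ) ^ (2 - δ) / 12000 ^ 2) ≤ 1000 * m :=
      le_trans (mul_le_mul_of_nonneg_left hm3 hc.le) hm2
    rw [hCdef, le_div_iff₀ (by norm_num)]
    have e : c₀ / (1000 * 2 ^ 60 * 12000 ^ 2) * (n : ℝ) ^ (2 - δ) * 2 ^ 60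
        = c₀ * ((n : ℝ) ^ (2 - δ) / 12000 ^ 2) / 1000 := by
      field_simp
    rw [e]
    linarith
  have hm5 : (m : ℝ) / 2 ^ 60 ≤ ((m / 2 ^ 60 : ℕ) : ℝ) + 1 := by
    rw [div_le_iff₀ (by norm_num)]
    have h3 : m ≤ (m / 2 ^ 60 + 1) * 2 ^ 60 := by
      norm_num
      omega
    exact_mod_cast h3
  have h3 : (n : ℝ) ^ (2 - ε) ≤ C / 2 * (n : ℝ) ^ (2 - δ) := by
    have e : (2 - δ : ℝ) = (ε - δ) + (2 - ε) := by ring
    rw [e, Real.rpow_add hn0, ← mul_assoc]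
    have h4 : 1 ≤ C / 2 * (n : ℝ) ^ (ε - δ) := by
      have h5 := mul_le_mul_of_nonneg_left hn1 (by positivity : 0 ≤ C / 2)
      have e1 : C / 2 * (2 / C) = 1 := by field_simp
      rw [e1] at h5
      exact h5
    exact le_mul_of_one_le_left (by positivity) h4
  have h6 : 1 ≤ C / 2 * (n : ℝ) ^ (2 - δ) := by
    have h5 := mul_le_mul_of_nonneg_left hn2 (by positivity : 0 ≤ C / 2)
    have e1 : C / 2 * (2 / C) = 1 := by field_simp
    rw [e1] at h5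
    exact h5
  linarith

end Pool.Agent.FP
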