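import Mathlib

/-!
# FP, module SHF: averaging over cyclic shifts
-/

set_option autoImplicit false

namespace Pool.Agent.FP

open scoped Classical in
/-- One block: some translate of `E` catches a tenth of the points. -/
theorem Shf_single {ι T : Type} [Fintype T] [AddCommGroup T] (A : Finset ι) (f : ι → T)
    (E : Set T) (hE : Fintype.card T ≤ 10 * Nat.card E) :
    ∃ s : T, A.card ≤ 10 * (A.filter fun i => f i + s ∈ E).card := by
  by_contra hcon
  push Not at hcon
  have hA : 0 < A.card := by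
    have h := hcon 0
    omega
  have hcount : ∑ s : T, (A.filter fun i => f i + s ∈ E).card = A.card * Nat.card E := by
    have h1 : ∀ s : T, (A.filter fun i => f i + s ∈ E).card =
        ∑ i ∈ A, if f i + s ∈ E then 1 else 0 := by
      intro s
      rw [Finset.card_filter]
    rw [Finset.sum_congr rfl fun s _ => h1 s, Finset.sum_comm]
    have h2 : ∀ i ∈ A, (∑ s : T, if f i + s ∈ E then 1 else 0) = Nat.card E := by
      intro i _
      rw [← Finset.card_filter]
      have h3 : (Finset.univ.filter fun s : T => f i + s ∈ E).card =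
          (Finset.univ.filter fun s : T => s ∈ E).card := by
        refine Finset.card_bij (fun s _ => f i + s) ?_ ?_ ?_
        · intro s hs
          simpa using hs
        · intro s _ s' _ h
          exact add_left_cancel h
        · intro b hb
          refine ⟨b - f i, ?_, by abel⟩
          have h4 : f i + (b - f i) = b := by abel
          simpa [h4] using hb
      rw [h3, Nat.card_eq_fintype_card, Fintype.card_subtype]
    rw [Finset.sum_congr rfl h2, Finset.sum_const, smul_eq_mul]
  have hlt : ∑ s : T, 10 * (A.filter fun i => f i + s ∈ E).card < ∑ _s : T, A.card := by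
    refine Finset.sum_lt_sum_of_nonempty ⟨0, Finset.mem_univ _⟩ fun s _ => ?_
    exact hcon s
  rw [← Finset.mul_sum, hcount, Finset.sum_const, Finset.card_univ, smul_eq_mul] at hlt
  have h5 : Fintype.card T * A.card ≤ 10 * (A.card * Nat.card E) := by
    calc Fintype.card T * A.card ≤ 10 * Nat.card E * A.card := Nat.mul_le_mul_right _ hE
      _ = 10 * (A.card * Nat.card E) := by ring
  omega

theorem shifts {ι : Type} [Fintype ι] (L : ℕ) [NeZero L] (w : ι → Fin 6 → ZMod L)
    (E : Fin 3 → Set (ZMod L × ZMod L)) (hE : ∀ t, L ^ 2 ≤ 10 * Nat.card (E t)) :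
    ∃ σ : Fin 6 → ZMod L, Fintype.card ι ≤ 1000 * Nat.card {i : ι // ∀ t : Fin 3,
      (w i ⟨2 * t, by omega⟩ + σ ⟨2 * t, by omega⟩,
        w i ⟨2 * t + 1, by omega⟩ + σ ⟨2 * t + 1, by omega⟩) ∈ E t} := by
  classical
  have hT : Fintype.card (ZMod L × ZMod L) = L ^ 2 := by
    rw [Fintype.card_prod, ZMod.card, sq]
  obtain ⟨s0, h0⟩ := Shf_single (Finset.univ : Finset ι) (fun i => (w i 0, w i 1)) (E 0)
    (by rw [hT]; exact hE 0)
  obtain ⟨s1, h1⟩ := Shf_single (Finset.univ.filter fun i => (w i 0, w i 1) + s0 ∈ E 0)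
    (fun i => (w i 2, w i 3)) (E 1) (by rw [hT]; exact hE 1)
  obtain ⟨s2, h2⟩ := Shf_single ((Finset.univ.filter fun i => (w i 0, w i 1) + s0 ∈ E 0).filter
      fun i => (w i 2, w i 3) + s1 ∈ E 1) (fun i => (w i 4, w i 5)) (E 2)
    (by rw [hT]; exact hE 2)
  refine ⟨![s0.1, s0.2, s1.1, s1.2, s2.1, s2.2], ?_⟩
  have hcard : Nat.card {i : ι // ∀ t : Fin 3,
      (w i ⟨2 * t, by omega⟩ + (![s0.1, s0.2, s1.1, s1.2, s2.1, s2.2] : Fin 6 → ZMod L)
          ⟨2 * t, by omega⟩,
        w i ⟨2 * t + 1, by omega⟩ + (![s0.1, s0.2, s1.1, s1.2, s2.1, s2.2] : Fin 6 → ZMod L)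
          ⟨2 * t + 1, by omega⟩) ∈ E t} =
      (((Finset.univ.filter fun i => (w i 0, w i 1) + s0 ∈ E 0).filter
      fun i => (w i 2, w i 3) + s1 ∈ E 1).filter fun i => (w i 4, w i 5) + s2 ∈ E 2).card := by
    rw [Nat.card_eq_fintype_card, Fintype.card_subtype]
    congr 1
    ext i
    simp only [Finset.mem_filter, Finset.mem_univ, true_and]
    constructor
    · intro h
      exact ⟨⟨h 0, h 1⟩, h 2⟩
    · rintro ⟨⟨ha, hb⟩, hc⟩ t
      fin_cases t
      · exact ha
      · exact hb
      · exact hc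
  rw [hcard]
  rw [Finset.card_univ] at h0
  omega

end Pool.Agent.FP
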