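import Mathlib
import Pool.Agent.Lib.MP_0a1b52_lc_FP.Beh
import Pool.Agent.Lib.MP_0a1b52_lc_FP.Blk
import Pool.Agent.Lib.MP_0a1b52_lc_FP.Shf
import Pool.Agent.Lib.MP_0a1b52_lc_FP.Clq
import Pool.Agent.Lib.MP_0a1b52_lc_FP.EmbArith

/-!
# The embedding: a cover for the clique function has many star-closed sets
-/

namespace Pool.Agent.FP

theorem Emb_cast_inj {L : ℕ} {x y : ℕ} (hx : x < L) (hy : y < L)
    (h : (x : ZMod L) = (y : ZMod L)) : x = y := by
  have h1 := (ZMod.natCast_eq_natCast_iff' x y L).1 h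
  rwa [Nat.mod_eq_of_lt hx, Nat.mod_eq_of_lt hy] at h1

/-- the bound `a + j * d < L` -/
theorem Emb_lt {L q a d : ℕ} (hq : 6 * q ≤ L) (ha : a < q) (hd : d < q) (j : Fin 6) :
    a + j * d < L := by
  have h1 : (j : ℕ) ≤ 5 := by omega
  have h2 : (j : ℕ) * d ≤ 5 * d := Nat.mul_le_mul_right _ h1
  omega

theorem Emb_solve {j j' a a' d d' : ℕ} (hj : j ≠ j') (h1 : a + j * d = a' + j * d')
    (h2 : a + j' * d = a' + j' * d') : a = a' ∧ d = d' := by
  have hd : d = d' := by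
    zify at h1 h2 hj ⊢
    have h3 : ((j : ℤ) - j') * (d - d') = 0 := by linear_combination h1 - h2
    rcases mul_eq_zero.1 h3 with h | h
    · exact absurd (sub_eq_zero.1 h) hj
    · exact sub_eq_zero.1 h
  subst hd
  exact ⟨by omega, rfl⟩

theorem Emb_tri {j a₀ a₁ a₂ d₀ d₁ d₂ : ℕ} (hj : 2 ≤ j) (h0 : a₀ + 0 * d₀ = a₁ + 0 * d₁)
    (h1 : a₀ + 1 * d₀ = a₂ + 1 * d₂) (h2 : a₁ + j * d₁ = a₂ + j * d₂) :
    1 * d₀ + (j - 1) * d₂ = (1 + (j - 1)) * d₁ := by
  obtain ⟨k, rfl⟩ : ∃ k, j = k + 1 := ⟨j - 1, by omega⟩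
  rw [Nat.add_sub_cancel]
  have e1 : (k + 1) * d₁ = k * d₁ + d₁ := by ring
  have e2 : (k + 1) * d₂ = k * d₂ + d₂ := by ring
  have e3 : (1 + k) * d₁ = k * d₁ + d₁ := by ring
  rw [e1, e2] at h2
  rw [e3]
  omega

theorem embed (ε : ℝ) (hε : 0 < ε) : ∃ n₀ : ℕ, ∀ n ≥ n₀, ∀ c : EdgeVar n → Fin 3,
    (∀ t, n ^ 2 ≤ 10 * (Finset.univ.filter fun e => c e = t).card) →
    ∀ (K : ℕ) (T : Fin K → (EdgeVar n → Bool) → Prop), (∀ θ, Star c (T θ)) →
      (∀ θ x, T θ x → ¬ Clq x) → (∀ x, ¬ Clq x → ∃ θ, T θ x) →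
      (n : ℝ) ^ (2 - ε) ≤ Real.logb 2 K := by
  classical
  obtain ⟨c₀, hc₀, hB⟩ := behrend (min (ε / 2) (1 / 2)) (by positivity)
  obtain ⟨n₁, hn₁, hA⟩ := Emb_arith ε (min (ε / 2) (1 / 2)) c₀ (by positivity)
    (min_le_right _ _) (lt_of_le_of_lt (min_le_left _ _) (by linarith)) hc₀
  obtain ⟨n₂, hn₂⟩ := blocks
  refine ⟨max n₁ n₂, fun n hn c hc K T hstar hT hcov => ?_⟩
  obtain ⟨φ, hφ, hbase, hcolc⟩ := hn₂ n (le_trans (le_max_right _ _) hn) c hc
  have hn1 : n₁ ≤ n := le_trans (le_max_left _ _) hn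
  have hA := hA n hn1
  generalize hL : n / 1000 = L at *
  have hL6 : 12 ≤ L := by omega
  have : NeZero L := ⟨by omega⟩
  obtain ⟨D, hD1, hD2, hD3⟩ := hB (L / 6) (by omega)
  generalize hq : L / 6 = q at *
  have hq6 : 6 * q ≤ L := by omega
  -- the gadgets
  let z : Fin q × {d // d ∈ D} → Fin 6 → ZMod L := fun i j => ((i.1.1 + j.1 * i.2.1 : ℕ) : ZMod L)
  let e : Fin L ≃ ZMod L := (ZMod.finEquiv L).toEquiv
  let E : Fin 3 → Set (ZMod L × ZMod L) := fun t =>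
    {p | Col c t (φ ⟨2 * t, by omega⟩ (e.symm p.1)) (φ ⟨2 * t + 1, by omega⟩ (e.symm p.2))}
  have hE : ∀ t, L ^ 2 ≤ 10 * Nat.card (E t) := by
    intro t
    refine le_trans (hcolc t) (Nat.mul_le_mul_left 10 (le_of_eq ?_))
    apply Nat.card_congr
    refine (Equiv.prodCongr e e).subtypeEquiv fun p => ?_
    simp [E]
  obtain ⟨σ, hσ⟩ := shifts L z E hE
  set good : Type := {i : Fin q × {d // d ∈ D} // ∀ t : Fin 3,
    (z i ⟨2 * t, by omega⟩ + σ ⟨2 * t, by omega⟩,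
      z i ⟨2 * t + 1, by omega⟩ + σ ⟨2 * t + 1, by omega⟩) ∈ E t} with hgood
  have hcard : Fintype.card (Fin q × {d // d ∈ D}) = q * D.card := by simp
  rw [hcard] at hσ
  obtain ⟨g⟩ : Nonempty (Fin (Nat.card good) ≃ good) := ⟨(Finite.equivFin good).symm⟩
  set m := Nat.card good with hm
  -- the vertices
  let w : Fin m → Fin 6 → Fin n := fun i j => φ j (e.symm (z (g i).1 j + σ j))
  let nat : Fin m → Fin 6 → ℕ := fun i j => (g i).1.1.1 + j.1 * (g i).1.2.1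
  have hz : ∀ i j, z (g i).1 j = ((nat i j : ℕ) : ZMod L) := fun i j => rfl
  have hnat : ∀ i j, nat i j < L := fun i j =>
    Emb_lt hq6 (g i).1.1.2 (hD1 _ (g i).1.2.2) j
  have hw : ∀ i i' j, w i j = w i' j → nat i j = nat i' j := by
    intro i i' j h
    have h1 := (hφ _ _ _ _ h).2
    have h2 := e.symm.injective h1
    have h3 := add_right_cancel h2
    rw [hz, hz] at h3
    exact Emb_cast_inj (hnat i j) (hnat i' j) h3
  have hinj : ∀ i i', (g i).1.1.1 = (g i').1.1.1 ∧ (g i).1.2.1 = (g i').1.2.1 → i = i' := by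
    intro i i' h
    apply g.injective
    apply Subtype.ext
    exact Prod.ext (Fin.ext h.1) (Subtype.ext h.2)
  have hbound : 2 ^ (m / 2 ^ 60) ≤ K := by
    refine clique_cover (n := n) (m := m) c w
      (fun v => if h : ∃ j a, φ j a = v then h.choose else 0) ?_ ?_ (by omega) ?_ ?_ ?_ T hstar
      hT hcov
    · intro i j
      have h : ∃ j' a, φ j' a = w i j := ⟨j, _, rfl⟩
      rw [dif_pos h]
      obtain ⟨a, ha⟩ := h.choose_spec
      exact (hφ _ _ _ _ ha).1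
    · intro i j
      exact hbase j _
    · intro i t
      exact (g i).2 t
    · intro i i' j j' hj h h'
      have h1 := hw _ _ _ h
      have h2 := hw _ _ _ h'
      exact hinj i i' (Emb_solve (fun h3 => hj (Fin.ext h3)) h1 h2)
    · intro f hf
      obtain ⟨i₀, h00, h01⟩ := hf 0 1 (by decide)
      refine ⟨i₀, fun j => ?_⟩
      by_cases hj0 : j = 0
      · rw [hj0]
        exact h00
      by_cases hj1 : j = 1
      · rw [hj1]
        exact h01
      have hj2 : 2 ≤ (j : ℕ) := by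
        have h1 : (j : ℕ) ≠ 0 := fun h => hj0 (Fin.ext h)
        have h2 : (j : ℕ) ≠ 1 := fun h => hj1 (Fin.ext h)
        omega
      obtain ⟨i₁, h10, h1j⟩ := hf 0 j (Ne.symm hj0)
      obtain ⟨i₂, h21, h2j⟩ := hf 1 j (Ne.symm hj1)
      have e0 : nat i₀ 0 = nat i₁ 0 := hw _ _ _ (h00.symm.trans h10)
      have e1 : nat i₀ 1 = nat i₂ 1 := hw _ _ _ (h01.symm.trans h21)
      have e2 : nat i₁ j = nat i₂ j := hw _ _ _ (h1j.symm.trans h2j)
      have e3 := Emb_tri hj2 e0 e1 e2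
      have e4 := hD3 1 (j - 1) le_rfl (by norm_num) (by omega) (by omega) _ (g i₀).1.2.2 _
        (g i₂).1.2.2 _ (g i₁).1.2.2 e3
      have e5 : (g i₀).1.2.1 = (g i₁).1.2.1 := by
        rw [← e4, ← Nat.add_mul] at e3
        exact Nat.eq_of_mul_eq_mul_left (by omega) e3
      have e6 : (g i₀).1.1.1 = (g i₁).1.1.1 := by
        have : (g i₀).1.1.1 + 0 * (g i₀).1.2.1 = (g i₁).1.1.1 + 0 * (g i₁).1.2.1 := e0
        omega
      rw [hinj i₀ i₁ ⟨e6, e5⟩]
      exact h1j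
  have h1 := hA q D.card m rfl hD2 hσ
  have h2 : ((m / 2 ^ 60 : ℕ) : ℝ) ≤ Real.logb 2 K := by
    have hK : (0 : ℝ) < K := by
      have : 0 < K := lt_of_lt_of_le (by positivity) hbound
      exact_mod_cast this
    rw [Real.le_logb_iff_rpow_le (by norm_num) hK]
    rw [Real.rpow_natCast]
    exact_mod_cast hbound
  exact le_trans h1 h2

end Pool.Agent.FP
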