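import Mathlib
import Pool.Agent.Lib.MP_0a1b52_lc_FP.Defs

/-!
# Passes over the variables and changes between three classes
-/

namespace Pool.Agent.FP

theorem Pass_card (n : ℕ) : n * n = 2 * Fintype.card (EdgeVar n) + n := by
  have e : Fintype.card (Fin n × Fin n) = Fintype.card (EdgeVar n) +
      Fintype.card {p : Fin n × Fin n // ¬ p.1 < p.2} := by
    rw [Fintype.card_subtype_compl, Nat.add_sub_cancel' (Fintype.card_subtype_le _)]
  have e2 : Fintype.card {p : Fin n × Fin n // ¬ p.1 < p.2} =
      Fintype.card (EdgeVar n ⊕ Fin n) := by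
    apply Fintype.card_congr
    refine ⟨fun p => if h : p.1.2 < p.1.1 then .inl ⟨(p.1.2, p.1.1), h⟩ else .inr p.1.1,
      fun q => match q with
        | .inl e => ⟨(e.1.2, e.1.1), by
            have := e.2
            simp only [not_lt]
            exact this.le⟩
        | .inr i => ⟨(i, i), lt_irrefl i⟩, ?_, ?_⟩
    · rintro ⟨⟨i, j⟩, h⟩
      by_cases h' : j < i
      · simp [h']
      · have : i = j := le_antisymm (not_lt.1 h') (not_lt.1 h)
        subst this
        simp
    · rintro (⟨⟨i, j⟩, h⟩ | i)
      · simp only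
        rw [dif_pos h]
      · simp
  rw [Fintype.card_sum, Fintype.card_fin] at e2
  rw [Fintype.card_prod, Fintype.card_fin, e2] at e
  omega

/-- three classes of consecutive elements -/
theorem Pass_thirds {V : Type} [Fintype V] [DecidableEq V] (hV : 3 ≤ Fintype.card V) (pos : V → ℕ)
    (hpos : Function.Injective pos) :
    ∃ c : V → Fin 3, (∀ v w, pos v ≤ pos w → c v ≤ c w) ∧
      ∀ t, Fintype.card V / 3 ≤ (Finset.univ.filter fun e => c e = t).card := by
  let inst : LinearOrder V := LinearOrder.lift' pos hpos
  have hle : ∀ v w : V, v ≤ w ↔ pos v ≤ pos w := fun v w => Iff.rfl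
  set N := Fintype.card V with hN
  let e : V ≃o Fin N := (Fintype.orderIsoFinOfCardEq V hN.symm).symm
  set a := N / 3 with ha
  have ha0 : 0 < a := by omega
  refine ⟨fun v => ⟨min ((e v : ℕ) / a) 2, by omega⟩, ?_, ?_⟩
  · intro v w h
    have h1 : e v ≤ e w := e.monotone ((hle v w).2 h)
    have h2 : (e v : ℕ) / a ≤ (e w : ℕ) / a := Nat.div_le_div_right h1
    show min ((e v : ℕ) / a) 2 ≤ min ((e w : ℕ) / a) 2
    omega
  · intro t
    have hlt : ∀ i : Fin a, t * a + i < N := by
      intro i
      have h3 : (t : ℕ) * a ≤ 2 * a := Nat.mul_le_mul_right _ (by omega)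
      omega
    have h2 : (Finset.univ.image fun i : Fin a => e.symm ⟨t * a + i, hlt i⟩).card = a := by
      rw [Finset.card_image_of_injective, Finset.card_univ, Fintype.card_fin]
      intro i j hij
      have h4 := e.symm.injective hij
      simp only [Fin.mk.injEq] at h4
      exact Fin.ext (by omega)
    refine h2.symm.le.trans (Finset.card_le_card fun v hv => ?_)
    obtain ⟨i, -, rfl⟩ := Finset.mem_image.1 hv
    rw [Finset.mem_filter]
    refine ⟨Finset.mem_univ _, Fin.ext ?_⟩
    simp only [OrderIso.apply_symm_apply]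
    have h5 : (t * a + i : ℕ) / a = t := by
      rw [mul_comm, Nat.mul_add_div ha0, Nat.div_eq_of_lt i.2, Nat.add_zero]
    rw [h5]
    omega

/-- three classes of consecutive variables -/
theorem Pass_classes {n : ℕ} (hn : 40 ≤ n) (pos : EdgeVar n → ℕ) (hpos : Function.Injective pos) :
    ∃ c : EdgeVar n → Fin 3, (∀ v w, pos v ≤ pos w → c v ≤ c w) ∧
      ∀ t, n ^ 2 ≤ 10 * (Finset.univ.filter fun e => c e = t).card := by
  have hcard := Pass_card n
  have h1 : 40 * n ≤ n * n := Nat.mul_le_mul_right _ hn
  obtain ⟨c, hc, hc'⟩ := Pass_thirds (V := EdgeVar n) (by omega) pos hpos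
  refine ⟨c, hc, fun t => ?_⟩
  have h2 := hc' t
  rw [pow_two]
  omega

theorem Pass_append {V : Type} (c : V → Fin 3) : ∀ L L' : List V,
    changes c (L ++ L') ≤ changes c L + changes c L' + 1
  | [], L' => by
    simp only [List.nil_append, changes]
    omega
  | [u], [] => by simp [changes]
  | [u], v :: L' => by
    simp only [List.cons_append, List.nil_append, changes]
    split_ifs <;> omega
  | u :: u' :: L, L' => by
    have h := Pass_append c (u' :: L) L'
    simp only [List.cons_append, changes] at h ⊢
    omega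

theorem Pass_up {V : Type} (pos : V → ℕ) (c : V → Fin 3) (hc : ∀ v w, pos v ≤ pos w → c v ≤ c w) :
    ∀ (l : List V) (v : V), (v :: l).Pairwise (fun a b => pos a ≤ pos b) →
      changes c (v :: l) + (c v : ℕ) ≤ 2
  | [], v, _ => by
    simp only [changes]
    omega
  | w :: l, v, h => by
    have h1 := List.pairwise_cons.1 h
    have h2 := Pass_up pos c hc l w h1.2
    have h3 : c v ≤ c w := hc v w (h1.1 w (by simp))
    simp only [changes] at h2 ⊢
    by_cases h4 : c v = c w
    · rw [if_pos h4, h4]
      omega
    · rw [if_neg h4]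
      have h5 : (c v : ℕ) < c w := lt_of_le_of_ne h3 fun h => h4 (Fin.ext h)
      omega

theorem Pass_down {V : Type} (pos : V → ℕ) (c : V → Fin 3)
    (hc : ∀ v w, pos v ≤ pos w → c v ≤ c w) :
    ∀ (l : List V) (v : V), (v :: l).Pairwise (fun a b => pos b ≤ pos a) →
      changes c (v :: l) ≤ (c v : ℕ)
  | [], v, _ => by
    simp only [changes]
    omega
  | w :: l, v, h => by
    have h1 := List.pairwise_cons.1 h
    have h2 := Pass_down pos c hc l w h1.2
    have h3 : c w ≤ c v := hc w v (h1.1 w (by simp))
    simp only [changes] at h2 ⊢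
    by_cases h4 : c v = c w
    · rw [if_pos h4, h4]
      omega
    · rw [if_neg h4]
      have h5 : (c w : ℕ) < c v := lt_of_le_of_ne h3 fun h => h4 (Fin.ext h.symm)
      omega

theorem Pass_changes {V : Type} (pos : V → ℕ) (c : V → Fin 3)
    (hc : ∀ v w, pos v ≤ pos w → c v ≤ c w) {p : ℕ} {L : List V} (h : ReadsIn pos p L) :
    changes c L ≤ 3 * p := by
  obtain ⟨P, rfl, rfl, h⟩ := h
  induction P with
  | nil => simp [changes]
  | cons l P ih =>
    have h1 := ih fun l' hl' => h l' (by simp [hl'])
    have h2 : changes c l ≤ 2 := by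
      have h3 := h l (by simp)
      cases l with
      | nil => simp [changes]
      | cons v l =>
        rcases h3 with h3 | h3
        · have := Pass_up pos c hc l v h3
          omega
        · have := Pass_down pos c hc l v h3
          omega
    have h4 := Pass_append c l P.flatten
    simp only [List.flatten_cons, List.length_cons]
    omega

end Pool.Agent.FP
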