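import Mathlib
import Pool.Agent.Lib.MP_0a1b52_lc_FP.Defs

/-!
# Gadget graphs: three party disjointness is a projection of the clique function
-/

set_option autoImplicit false

namespace Pool.Agent.FP

open Classical in
/-- the vertices with the largest numbers -/
noncomputable def Clq_R (n : ℕ) : Finset (Fin n) :=
  Finset.univ.filter fun v => n - (Nat.sqrt n - 5) ≤ (v : ℕ)

/-- the edge `{w i j, w i j'}` is switched on by `X` -/
def Clq_ok {m : ℕ} (X : Fin 3 → Fin m → Bool) (i : Fin m) (j j' : Fin 6) : Prop :=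
  ∀ t : Fin 3, (((j : ℕ) = 2 * t ∧ (j' : ℕ) = 2 * t + 1) ∨
    ((j : ℕ) = 2 * t + 1 ∧ (j' : ℕ) = 2 * t)) → X t i = true

/-- adjacency in the gadget graph -/
def Clq_adj {n m : ℕ} (w : Fin m → Fin 6 → Fin n) (X : Fin 3 → Fin m → Bool) (u v : Fin n) :
    Prop :=
  u ∈ Clq_R n ∨ v ∈ Clq_R n ∨ ∃ i j j', j ≠ j' ∧ u = w i j ∧ v = w i j' ∧ Clq_ok X i j j'

open Classical in
/-- the gadget graph as an assignment -/
noncomputable def Clq_G {n m : ℕ} (w : Fin m → Fin 6 → Fin n) (X : Fin 3 → Fin m → Bool) :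
    EdgeVar n → Bool :=
  fun e => decide (Clq_adj w X e.1.1 e.1.2)

theorem Clq_ok_symm {m : ℕ} {X : Fin 3 → Fin m → Bool} {i : Fin m} {j j' : Fin 6}
    (h : Clq_ok X i j j') : Clq_ok X i j' j := by
  intro t ht
  refine h t ?_
  rcases ht with ⟨h1, h2⟩ | ⟨h1, h2⟩
  · exact Or.inr ⟨h2, h1⟩
  · exact Or.inl ⟨h2, h1⟩

theorem Clq_adj_symm {n m : ℕ} {w : Fin m → Fin 6 → Fin n} {X : Fin 3 → Fin m → Bool}
    {u v : Fin n} (h : Clq_adj w X u v) : Clq_adj w X v u := by
  rcases h with h | h | ⟨i, j, j', h1, h2, h3, h4⟩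
  · exact Or.inr (Or.inl h)
  · exact Or.inl h
  · exact Or.inr (Or.inr ⟨i, j', j, h1.symm, h3, h2, Clq_ok_symm h4⟩)

theorem Clq_graph {n m : ℕ} (w : Fin m → Fin 6 → Fin n) (X : Fin 3 → Fin m → Bool)
    (u v : Fin n) (huv : u ≠ v) : (graphOf (Clq_G w X)).Adj u v ↔ Clq_adj w X u v := by
  constructor
  · rintro ⟨e, h, h1⟩
    have h2 : Clq_adj w X e.1.1 e.1.2 := by simpa [Clq_G] using h
    rcases h1 with h1 | h1
    · rw [h1] at h2; exact h2
    · rw [h1] at h2; exact Clq_adj_symm h2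
  · intro h
    rcases lt_or_gt_of_ne huv with h1 | h1
    · exact ⟨⟨(u, v), h1⟩, by simpa [Clq_G] using h, Or.inl rfl⟩
    · exact ⟨⟨(v, u), h1⟩, by simpa [Clq_G] using Clq_adj_symm h, Or.inr rfl⟩

theorem Clq_card_R {n : ℕ} (hn : 36 ≤ n) : (Clq_R n).card = Nat.sqrt n - 5 := by
  have h1 : Nat.sqrt n ≤ n := Nat.sqrt_le_self n
  have h2 : (Clq_R n).map Fin.valEmbedding = Finset.Ico (n - (Nat.sqrt n - 5)) n := by
    ext a
    simp only [Clq_R, Finset.mem_map, Finset.mem_filter, Finset.mem_univ, true_and,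
      Fin.valEmbedding_apply, Finset.mem_Ico]
    constructor
    · rintro ⟨b, hb, rfl⟩
      exact ⟨hb, b.2⟩
    · rintro ⟨h3, h4⟩
      exact ⟨⟨a, h4⟩, h3, rfl⟩
  have h3 := congrArg Finset.card h2
  rw [Finset.card_map, Nat.card_Ico] at h3
  omega

theorem Clq_six {n : ℕ} (hn : 36 ≤ n) : 6 ≤ Nat.sqrt n := by
  rw [Nat.le_sqrt]; omega

theorem Clq_iff {n m : ℕ} (w : Fin m → Fin 6 → Fin n)
    (part : Fin n → Fin 6) (hpart : ∀ i j, part (w i j) = j)
    (hbase : ∀ i j, (w i j : ℕ) + (Nat.sqrt n + 1) ≤ n - 1)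
    (hn : 36 ≤ n)
    (hedge : ∀ i i' (j j' : Fin 6), j ≠ j' → w i j = w i' j → w i j' = w i' j' → i = i')
    (hclq : ∀ f : Fin 6 → Fin n, (∀ j j' : Fin 6, j ≠ j' → ∃ i, f j = w i j ∧ f j' = w i j') →
      ∃ i, ∀ j, f j = w i j)
    (X : Fin 3 → Fin m → Bool) : Clq (Clq_G w X) ↔ ∃ i, ∀ t, X t i = true := by
  classical
  have h6 := Clq_six hn
  have hR : ∀ i j, w i j ∉ Clq_R n := by
    intro i j h
    have h1 := hbase i j
    have h2 : n - (Nat.sqrt n - 5) ≤ (w i j : ℕ) := by
      simpa [Clq_R] using h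
    omega
  constructor
  · rintro ⟨Q, hQ, hcard⟩
    have h1 : Nat.sqrt n + 1 ≤ Q.card := by
      have h2 : ((Nat.sqrt n : ℕ) : ℝ) < Q.card := lt_of_le_of_lt (Real.nat_sqrt_le_real_sqrt) hcard
      exact_mod_cast h2
    have h2 : 6 ≤ (Q \ Clq_R n).card := by
      have h3 := Finset.le_card_sdiff (Clq_R n) Q
      rw [Clq_card_R hn] at h3
      omega
    have hadj : ∀ u ∈ Q \ Clq_R n, ∀ v ∈ Q \ Clq_R n, u ≠ v →
        ∃ i, u = w i (part u) ∧ v = w i (part v) ∧ part u ≠ part v ∧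
          Clq_ok X i (part u) (part v) := by
      intro u hu v hv huv
      obtain ⟨hu1, hu2⟩ := Finset.mem_sdiff.1 hu
      obtain ⟨hv1, hv2⟩ := Finset.mem_sdiff.1 hv
      have h3 := (Clq_graph w X u v huv).1 (hQ (by exact_mod_cast hu1) (by exact_mod_cast hv1) huv)
      rcases h3 with h3 | h3 | ⟨i, j, j', h4, h5, h6, h7⟩
      · exact absurd h3 hu2
      · exact absurd h3 hv2
      · have h8 : part u = j := by rw [h5, hpart]
        have h9 : part v = j' := by rw [h6, hpart]
        rw [h8, h9]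
        exact ⟨i, h5, h6, h4, h7⟩
    have hinj : Set.InjOn part (Q \ Clq_R n : Finset (Fin n)) := by
      intro u hu v hv huv
      by_contra hne
      obtain ⟨i, -, -, h3, -⟩ := hadj u (by exact_mod_cast hu) v (by exact_mod_cast hv) hne
      exact h3 huv
    have himg : (Q \ Clq_R n).image part = Finset.univ := by
      rw [← Finset.card_eq_iff_eq_univ]
      refine le_antisymm (Finset.card_le_univ _) ?_
      rw [Finset.card_image_of_injOn hinj, Fintype.card_fin]
      exact h2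
    have hex : ∀ j : Fin 6, ∃ u ∈ Q \ Clq_R n, part u = j := by
      intro j
      have h3 : j ∈ (Q \ Clq_R n).image part := by rw [himg]; exact Finset.mem_univ j
      simpa using Finset.mem_image.1 h3
    choose f hf hfp using hex
    have hne : ∀ j j' : Fin 6, j ≠ j' → f j ≠ f j' := by
      intro j j' h h'
      exact h (by rw [← hfp j, ← hfp j', h'])
    obtain ⟨i, hi⟩ := hclq f (by
      intro j j' h
      obtain ⟨i, h3, h4, -, -⟩ := hadj (f j) (hf j) (f j') (hf j') (hne j j' h)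
      rw [hfp] at h3 h4
      exact ⟨i, h3, h4⟩)
    refine ⟨i, fun t => ?_⟩
    have hlt : (⟨2 * t, by omega⟩ : Fin 6) ≠ ⟨2 * t + 1, by omega⟩ := by
      intro h
      have := congrArg Fin.val h
      simp at this
    obtain ⟨i', h3, h4, -, h5⟩ := hadj _ (hf ⟨2 * t, by omega⟩) _ (hf ⟨2 * t + 1, by omega⟩)
      (hne _ _ hlt)
    rw [hfp] at h3 h4
    rw [hfp, hfp] at h5
    rw [hi] at h3 h4
    have h7 := hedge i i' _ _ hlt h3 h4
    rw [h7]
    exact h5 t (Or.inl ⟨rfl, rfl⟩)
  · rintro ⟨i, hi⟩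
    have hwinj : Function.Injective (w i) := by
      intro j j' h
      rw [← hpart i j, ← hpart i j', h]
    refine ⟨Clq_R n ∪ Finset.univ.image (w i), ?_, ?_⟩
    · intro u hu v hv huv
      rw [Clq_graph w X u v huv]
      simp only [Finset.coe_union, Set.mem_union, Finset.mem_coe, Finset.mem_image,
        Finset.mem_univ, true_and] at hu hv
      rcases hu with hu | ⟨j, rfl⟩
      · exact Or.inl hu
      · rcases hv with hv | ⟨j', rfl⟩
        · exact Or.inr (Or.inl hv)
        · refine Or.inr (Or.inr ⟨i, j, j', ?_, rfl, rfl, fun t _ => hi t⟩)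
          rintro rfl
          exact huv rfl
    · have hdisj : Disjoint (Clq_R n) (Finset.univ.image (w i)) := by
        rw [Finset.disjoint_left]
        intro u hu hu'
        obtain ⟨j, -, rfl⟩ := Finset.mem_image.1 hu'
        exact hR i j hu
      rw [Finset.card_union_of_disjoint hdisj, Clq_card_R hn,
        Finset.card_image_of_injective _ hwinj, Finset.card_univ, Fintype.card_fin]
      have h3 : Nat.sqrt n - 5 + 6 = Nat.sqrt n + 1 := by omega
      rw [h3]
      push_cast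
      exact Real.real_sqrt_lt_nat_sqrt_succ

theorem Clq_indep {n m : ℕ} (c : EdgeVar n → Fin 3) (w : Fin m → Fin 6 → Fin n)
    (hcol : ∀ (i : Fin m) (t : Fin 3), Col c t (w i ⟨2 * t, by omega⟩) (w i ⟨2 * t + 1, by omega⟩))
    (X X' : Fin 3 → Fin m → Bool) (t : Fin 3) (hX : ∀ t', t' ≠ t → X t' = X' t')
    (e : EdgeVar n) (he : c e ≠ t) : Clq_G w X e = Clq_G w X' e := by
  have key : ∀ (X X' : Fin 3 → Fin m → Bool) (_ : ∀ t', t' ≠ t → X t' = X' t'),
      Clq_adj w X e.1.1 e.1.2 → Clq_adj w X' e.1.1 e.1.2 := by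
    intro X X' hX h
    rcases h with h | h | ⟨i, j, j', h1, h2, h3, h4⟩
    · exact Or.inl h
    · exact Or.inr (Or.inl h)
    · refine Or.inr (Or.inr ⟨i, j, j', h1, h2, h3, fun t' ht' => ?_⟩)
      by_cases htt : t' = t
      · exfalso
        subst htt
        apply he
        obtain ⟨e', hc, he'⟩ := hcol i t'
        have h5 : e' = e := by
          apply Subtype.ext
          have hlt := e.2
          have hlt' := e'.2
          rcases ht' with ⟨h6, h7⟩ | ⟨h6, h7⟩
          · have h8 : (⟨2 * t', by omega⟩ : Fin 6) = j := Fin.ext h6.symm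
            have h9 : (⟨2 * t' + 1, by omega⟩ : Fin 6) = j' := Fin.ext h7.symm
            rw [h8, h9, ← h2, ← h3] at he'
            rcases he' with he' | he'
            · rw [he']
            · rw [he'] at hlt'
              exact absurd hlt (lt_asymm hlt')
          · have h8 : (⟨2 * t' + 1, by omega⟩ : Fin 6) = j := Fin.ext h6.symm
            have h9 : (⟨2 * t', by omega⟩ : Fin 6) = j' := Fin.ext h7.symm
            rw [h8, h9, ← h2, ← h3] at he'
            rcases he' with he' | he'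
            · rw [he'] at hlt'
              exact absurd hlt (lt_asymm hlt')
            · rw [he']
        rw [← h5, hc]
      · rw [← hX t' htt]
        exact h4 t' ht'
  unfold Clq_G
  rw [decide_eq_decide]
  exact ⟨key X X' hX, key X' X fun t' ht' => (hX t' ht').symm⟩

end Pool.Agent.FP
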